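import Pool.Agent.H135R2.VS.Alg

set_option autoImplicit false

/-! # A generic singular matrix -/

namespace Run7.h460.LC

open MvPolynomial Pool.Agent.H135R2.VS Matrix

variable {R : Type} [Fintype R] [DecidableEq R]

/-- `M` is a generic singular matrix over `K`, with right kernel `w` and left kernel `w'`. -/
structure Gen (K : SF) (M : Matrix R R ℝ) (w w' : R → ℝ) : Prop where
  right : M *ᵥ w = 0
  left : w' ᵥ* M = 0
  ker : ∀ v, M *ᵥ v = 0 → ∃ c : ℝ, v = c • w
  w'0 : ∀ r, w' r ≠ 0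
  w0 : ∀ r, w r ≠ 0
  der : ∀ X : Matrix R R ℝ, w' ⬝ᵥ (X *ᵥ w) = 0 →
    ∃ D : Derivation ℚ ℝ ℝ, Van K D ∧ ∀ r s, D (M r s) = X r s

section block
variable {m : ℕ}

abbrev Ix (m : ℕ) := (Fin m × Fin m) ⊕ Fin m ⊕ Fin m

/-- The matrix of the rows `G`, of the column `G u`, and of a combination of the rows. -/
def Mb (z : Ix m → ℝ) : Matrix (Fin m ⊕ Unit) (Fin m ⊕ Unit) ℝ
  | .inl i, .inl j => z (.inl (i, j))
  | .inl i, .inr _ => ∑ j, z (.inl (i, j)) * z (.inr (.inl j))
  | .inr _, .inl j => ∑ i, z (.inr (.inr i)) * z (.inl (i, j))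
  | .inr _, .inr _ => ∑ i, z (.inr (.inr i)) * ∑ j, z (.inl (i, j)) * z (.inr (.inl j))

def wb (z : Ix m → ℝ) : Fin m ⊕ Unit → ℝ
  | .inl j => z (.inr (.inl j))
  | .inr _ => -1

def wb' (z : Ix m → ℝ) : Fin m ⊕ Unit → ℝ
  | .inl i => z (.inr (.inr i))
  | .inr _ => -1

/-- The generic block. -/
def Gb (z : Ix m → ℝ) : Matrix (Fin m) (Fin m) ℝ := fun i j => z (.inl (i, j))

theorem det_Gb {K : SF} {z : Ix m → ℝ} (hz : AlgebraicIndependent K z) : (Gb z).det ≠ 0 := by
  have h1 : AlgebraicIndependent K (fun p : Fin m × Fin m => z (.inl p)) :=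
    hz.comp _ Sum.inl_injective
  have h2 : (Matrix.mvPolynomialX (Fin m) (Fin m) K).det ≠ 0 :=
    Matrix.det_mvPolynomialX_ne_zero (Fin m) K
  intro h3
  apply h2
  apply h1
  change aeval _ (Matrix.det _) = aeval _ 0
  rw [map_zero, AlgHom.map_det, ← h3]
  congr 1
  ext i j
  simp [Gb, Matrix.mvPolynomialX]

theorem gen_block {K : SF} {z : Ix m → ℝ} (hz : AlgebraicIndependent K z) :
    Gen K (Mb z) (wb z) (wb' z) := by
  have hdet := det_Gb hz
  have hne : ∀ i, z i ≠ 0 := fun i => hz.ne_zero i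
  have hunit : IsUnit (Gb z).det := isUnit_iff_ne_zero.2 hdet
  refine ⟨?_, ?_, ?_, ?_, ?_, ?_⟩
  · ext r
    rcases r with i | u
    · simp [Matrix.mulVec, dotProduct, Mb, wb]
    · simp only [Matrix.mulVec, dotProduct, Mb, wb, Fintype.sum_sum_type, Finset.univ_unique,
        Finset.sum_singleton, Pi.zero_apply, Finset.sum_mul, Finset.mul_sum]
      rw [Finset.sum_comm]
      simp [mul_assoc]
  · ext s
    rcases s with j | u
    · simp [Matrix.vecMul, dotProduct, Mb, wb']
    · simp [Matrix.vecMul, dotProduct, Mb, wb']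
  · intro v hv
    refine ⟨- v (.inr ()), ?_⟩
    have h1 : (Gb z) *ᵥ (fun j => v (.inl j) + z (.inr (.inl j)) * v (.inr ())) = 0 := by
      ext i
      have h2 := congrFun hv (.inl i)
      simp only [Matrix.mulVec, dotProduct, Mb, Fintype.sum_sum_type, Finset.univ_unique,
        Finset.sum_singleton, Pi.zero_apply, Finset.sum_mul] at h2
      simp only [Matrix.mulVec, dotProduct, Gb, Pi.zero_apply, mul_add, Finset.sum_add_distrib]
      rw [← h2]
      congr 1
      refine Finset.sum_congr rfl fun j _ => ?_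
      ring
    have h2 := Matrix.eq_zero_of_mulVec_eq_zero hdet h1
    ext s
    rcases s with j | u
    · have h3 := congrFun h2 j
      simp only [Pi.zero_apply] at h3
      simp only [Pi.smul_apply, wb, smul_eq_mul]
      linarith
    · simp [wb]
  · rintro (i | u)
    · exact hne _
    · simp [wb']
  · rintro (i | u)
    · exact hne _
    · simp [wb]
  · intro X hX
    -- the blocks of `X`
    let X11 : Matrix (Fin m) (Fin m) ℝ := fun i j => X (.inl i) (.inl j)
    let X12 : Fin m → ℝ := fun i => X (.inl i) (.inr ())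
    let X21 : Fin m → ℝ := fun j => X (.inr ()) (.inl j)
    let u : Fin m → ℝ := fun j => z (.inr (.inl j))
    let c : Fin m → ℝ := fun i => z (.inr (.inr i))
    let du : Fin m → ℝ := (Gb z)⁻¹ *ᵥ (X12 - X11 *ᵥ u)
    let dc : Fin m → ℝ := (X21 - c ᵥ* X11) ᵥ* (Gb z)⁻¹
    have hdu : (Gb z) *ᵥ du = X12 - X11 *ᵥ u := by
      simp only [du]
      rw [Matrix.mulVec_mulVec, Matrix.mul_nonsing_inv _ hunit, Matrix.one_mulVec]
    have hdc : dc ᵥ* (Gb z) = X21 - c ᵥ* X11 := by
      simp only [dc]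
      rw [Matrix.vecMul_vecMul, Matrix.nonsing_inv_mul _ hunit, Matrix.vecMul_one]
    obtain ⟨D, hDK, hD⟩ := exists_derK hz (fun i => match i with
      | .inl p => X11 p.1 p.2
      | .inr (.inl j) => du j
      | .inr (.inr i) => dc i)
    have hD1 : ∀ i j, D (z (.inl (i, j))) = X11 i j := fun i j => hD (.inl (i, j))
    have hD2 : ∀ j, D (z (.inr (.inl j))) = du j := fun j => hD (.inr (.inl j))
    have hD3 : ∀ i, D (z (.inr (.inr i))) = dc i := fun i => hD (.inr (.inr i))
    have e1 : ∀ i, D (∑ j, z (.inl (i, j)) * z (.inr (.inl j))) = X12 i := by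
      intro i
      rw [map_sum]
      simp only [Derivation.leibniz, smul_eq_mul, hD1, hD2]
      rw [Finset.sum_add_distrib]
      have h1 := congrFun hdu i
      simp only [Matrix.mulVec, dotProduct, Gb, Pi.sub_apply] at h1
      rw [h1]
      have h2 : ∑ j, z (.inr (.inl j)) * X11 i j = ∑ j, X11 i j * u j :=
        Finset.sum_congr rfl fun j _ => mul_comm _ _
      rw [h2]
      ring
    refine ⟨D, hDK, ?_⟩
    rintro (i | ⟨⟩) (j | ⟨⟩)
    · exact hD1 i j
    · exact e1 i
    · change D (∑ i, z (.inr (.inr i)) * z (.inl (i, j))) = X21 j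
      rw [map_sum]
      simp only [Derivation.leibniz, smul_eq_mul, hD1, hD3]
      rw [Finset.sum_add_distrib]
      have h1 := congrFun hdc j
      simp only [Matrix.vecMul, dotProduct, Gb, Pi.sub_apply] at h1
      have h2 : ∑ i, z (.inl (i, j)) * dc i = ∑ i, dc i * z (.inl (i, j)) :=
        Finset.sum_congr rfl fun i _ => mul_comm _ _
      rw [h2, h1]
      change ∑ i, c i * X11 i j + (X21 j - ∑ i, c i * X11 i j) = X21 j
      ring
    · change D (∑ i, z (.inr (.inr i)) * ∑ j, z (.inl (i, j)) * z (.inr (.inl j))) =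
        X (.inr ()) (.inr ())
      rw [map_sum]
      simp only [Derivation.leibniz, smul_eq_mul, e1, hD3]
      rw [Finset.sum_add_distrib]
      -- the second sum
      have h2 : ∑ i, (∑ j, z (.inl (i, j)) * z (.inr (.inl j))) * dc i =
          (dc ᵥ* (Gb z)) ⬝ᵥ u := by
        rw [← Matrix.dotProduct_mulVec]
        simp only [dotProduct, Matrix.mulVec, Gb, u]
        exact Finset.sum_congr rfl fun i _ => mul_comm _ _
      have h3 : ∑ i, z (.inr (.inr i)) * X12 i = c ⬝ᵥ X12 := rfl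
      rw [h2, h3, hdc, sub_dotProduct]
      -- the relation
      have h4 : wb' z ⬝ᵥ (X *ᵥ wb z) = c ⬝ᵥ (X11 *ᵥ u) - c ⬝ᵥ X12 - X21 ⬝ᵥ u +
          X (.inr ()) (.inr ()) := by
        simp only [dotProduct, Matrix.mulVec, Fintype.sum_sum_type, Finset.univ_unique,
          Finset.sum_singleton, wb', wb, c, u, X11, X12, X21, mul_add, Finset.sum_add_distrib,
          mul_neg, mul_one, Finset.sum_neg_distrib, PUnit.default_eq_unit]
        ring
      rw [hX] at h4
      rw [← Matrix.dotProduct_mulVec]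
      linarith

end block

/-- Generic singular matrices exist. -/
theorem exists_gen (K : SF) [Countable K] {m : ℕ} (e : R ≃ Fin m ⊕ Unit) :
    ∃ (M : Matrix R R ℝ) (w w' : R → ℝ), Gen K M w w' ∧ ∀ r, w' r < 0 := by
  have hopen : IsOpen {z : Ix m → ℝ | ∀ i, z (.inr (.inr i)) < 0} := by
    rw [Set.ext (fun z => by simp : ∀ z, z ∈ {z : Ix m → ℝ | ∀ i, z (.inr (.inr i)) < 0} ↔
      z ∈ ⋂ i, {z : Ix m → ℝ | z (.inr (.inr i)) < 0})]
    exact isOpen_iInter_of_finite fun i => isOpen_Iio.preimage (continuous_apply _)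
  obtain ⟨z, hneg, hz⟩ := exists_algInd (ι := Ix m) (K := K) hopen
    ⟨fun _ => -1, fun _ => by norm_num⟩
  have h := gen_block hz
  refine ⟨(Mb z).submatrix e e, wb z ∘ e, wb' z ∘ e, ⟨?_, ?_, ?_, ?_, ?_, ?_⟩, ?_⟩
  · have h1 := Matrix.submatrix_mulVec_equiv (Mb z) (wb z ∘ e) e e
    rw [h1]
    have : (wb z ∘ e) ∘ e.symm = wb z := by ext i; simp
    rw [this, h.right]
    rfl
  · have h1 := Matrix.submatrix_vecMul_equiv (Mb z) (wb' z ∘ e) e e
    rw [h1]
    have : (wb' z ∘ e) ∘ e.symm = wb' z := by ext i; simp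
    rw [this, h.left]
    rfl
  · intro v hv
    rw [Matrix.submatrix_mulVec_equiv] at hv
    have h1 : (Mb z) *ᵥ (v ∘ e.symm) = 0 := by
      ext i
      have := congrFun hv (e.symm i)
      simpa using this
    obtain ⟨c, hc⟩ := h.ker _ h1
    refine ⟨c, ?_⟩
    ext i
    have := congrFun hc (e i)
    simpa using this
  · intro r; exact h.w'0 _
  · intro r; exact h.w0 _
  · intro X hX
    have h1 : wb' z ⬝ᵥ ((X.submatrix e.symm e.symm) *ᵥ wb z) = 0 := by
      rw [Matrix.submatrix_mulVec_equiv, ← hX]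
      simp only [Equiv.symm_symm, dotProduct, Function.comp_apply]
      rw [← e.sum_comp]
      simp
    obtain ⟨D, hD, hD'⟩ := h.der _ h1
    refine ⟨D, hD, fun r s => ?_⟩
    have := hD' (e r) (e s)
    simpa using this
  · intro r
    change wb' z (e r) < 0
    rcases e r with i | u
    · exact hneg i
    · simp [wb']

end Run7.h460.LC
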