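import Pool.Agent.Run7.h460.LC.Step
import Pool.Agent.Run7.h460.LC.Gen

set_option autoImplicit false
set_option linter.unusedSectionVars false

/-! # The beginning of the conversation, and its course -/

namespace Run7.h460.LC

open Module Matrix Pool.Agent.H135R2.VS

variable {ρ σ C : Type} [Fintype ρ] [Fintype σ] [Fintype C] [DecidableEq ρ] [DecidableEq σ]
  [DecidableEq C]

noncomputable section

/-- The derivations which vanish on `k`. -/
def VanS (k : SF) : Submodule ℝ Der where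
  carrier := {D | Van k D}
  add_mem' h h' := h.add h'
  zero_mem' := van_zero k
  smul_mem' c _ h := h.smul c

/-- The derivations which vanish on `k` and on the messages. -/
def Tm (k : SF) (ms : List ℝ) : Submodule ℝ Der where
  carrier := {D | Van k D ∧ ∀ m ∈ ms, D m = 0}
  add_mem' {D D'} h h' := ⟨h.1.add h'.1, fun m hm => by
    rw [Derivation.add_apply, h.2 m hm, h'.2 m hm, add_zero]⟩
  zero_mem' := ⟨van_zero k, fun _ _ => rfl⟩
  smul_mem' c D h := ⟨h.1.smul c, fun m hm => by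
    rw [Derivation.smul_apply, h.2 m hm, smul_zero]⟩

theorem Tm_append (k : SF) (ms : List ℝ) (m : ℝ) :
    Tm k (ms ++ [m]) = Tm k ms ⊓ LinearMap.ker (de m) := by
  ext D
  constructor
  · rintro ⟨h1, h2⟩
    exact ⟨⟨h1, fun m' hm' => h2 m' (by simp [hm'])⟩, h2 m (by simp)⟩
  · rintro ⟨⟨h1, h2⟩, h3⟩
    refine ⟨h1, fun m' hm' => ?_⟩
    rcases List.mem_append.1 hm' with h | h
    · exact h2 m' h
    · rw [List.mem_singleton.1 h]
      exact h3

/-- The rows with the indices `inl i`. -/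
def rowsA (M : Matrix (ρ ⊕ σ) (ρ ⊕ σ) ℝ) (e : C ≃ ρ ⊕ σ) : Matrix ρ C ℝ :=
  fun i c => M (.inl i) (e c)

/-- The rows with the indices `inr i`. -/
def rowsB (M : Matrix (ρ ⊕ σ) (ρ ⊕ σ) ℝ) (e : C ≃ ρ ⊕ σ) : Matrix σ C ℝ :=
  fun i c => M (.inr i) (e c)

theorem sum_equiv (e : C ≃ ρ ⊕ σ) (f : ρ ⊕ σ → ℝ) : ∑ c, f (e c) = ∑ r, f r := e.sum_comp f

variable {k : SF} {M : Matrix (ρ ⊕ σ) (ρ ⊕ σ) ℝ} {w w' : ρ ⊕ σ → ℝ}

theorem dat_of_gen [Nonempty ρ] [Nonempty σ] (h : Gen k M w w') (e : C ≃ ρ ⊕ σ) :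
    Dat (rowsA M e) (rowsB M e) (w' ∘ Sum.inl) (w' ∘ Sum.inr) (w ∘ e) := by
  refine ⟨?_, ?_, ?_, ?_, ?_, ?_, ?_⟩
  · ext i
    have h1 := congrFun h.right (.inl i)
    rw [Pi.zero_apply, Matrix.mulVec, dotProduct, ← sum_equiv e] at h1
    exact h1
  · ext i
    have h1 := congrFun h.right (.inr i)
    rw [Pi.zero_apply, Matrix.mulVec, dotProduct, ← sum_equiv e] at h1
    exact h1
  · ext c
    have h1 := congrFun h.left (e c)
    rw [Pi.zero_apply, Matrix.vecMul, dotProduct, Fintype.sum_sum_type] at h1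
    exact h1
  · intro h0
    have h1 := congrFun h0 (e.symm (.inl (Classical.arbitrary ρ)))
    simp only [Function.comp_apply, Equiv.apply_symm_apply, Pi.zero_apply] at h1
    exact h.w0 _ h1
  · intro h0
    exact h.w'0 _ (congrFun h0 (Classical.arbitrary ρ))
  · intro h0
    exact h.w'0 _ (congrFun h0 (Classical.arbitrary σ))
  · rw [Fintype.card_congr e, Fintype.card_sum]

theorem dot_self_ne {ι : Type} [Fintype ι] {x : ι → ℝ} (hx : x ≠ 0) : x ⬝ᵥ x ≠ 0 := by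
  rw [Ne, dotProduct_self_eq_zero]
  exact hx

theorem map_mv_top {w : C → ℝ} (hw : w ≠ 0) :
    (⊤ : Submodule ℝ (Matrix ρ C ℝ)).map (mv w) = ⊤ := by
  rw [Submodule.map_top, LinearMap.range_eq_top]
  intro y
  refine ⟨Matrix.vecMulVec ((w ⬝ᵥ w)⁻¹ • y) w, ?_⟩
  rw [mv_apply, Matrix.vecMulVec_mulVec]
  ext i
  have := dot_self_ne hw
  change (w ⬝ᵥ w)⁻¹ * y i * (w ⬝ᵥ w) = y i
  field_simp

theorem map_vm_top {u : ρ → ℝ} (hu : u ≠ 0) :
    (⊤ : Submodule ℝ (Matrix ρ C ℝ)).map (vm u) = ⊤ := by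
  rw [Submodule.map_top, LinearMap.range_eq_top]
  intro y
  refine ⟨Matrix.vecMulVec u ((u ⬝ᵥ u)⁻¹ • y), ?_⟩
  rw [vm_apply, Matrix.vecMul_vecMulVec]
  ext i
  have := dot_self_ne hu
  simp only [Pi.smul_apply, smul_eq_mul]
  field_simp

theorem exists_ne {u : ρ → ℝ} {w : C → ℝ} (hu : u ≠ 0) (hw : w ≠ 0) (c : ℝ) :
    ∃ X : Matrix ρ C ℝ, u ⬝ᵥ (X *ᵥ w) = c := by
  have h1 := dot_self_ne hu
  have h2 : ((c / (u ⬝ᵥ u)) • u : ρ → ℝ) ∈
      (⊤ : Submodule ℝ (Matrix ρ C ℝ)).map (mv w) := by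
    rw [map_mv_top hw]; trivial
  obtain ⟨X, -, hX⟩ := h2
  refine ⟨X, ?_⟩
  rw [mv_apply] at hX
  rw [hX, dotProduct_smul, smul_eq_mul, div_mul_cancel₀ _ h1]

theorem base [Nonempty ρ] [Nonempty σ] (h : Gen k M w w') (e : C ≃ ρ ⊕ σ) :
    Inv (rowsA M e) (rowsB M e) (w' ∘ Sum.inl) (w' ∘ Sum.inr) (w ∘ e) (Tm k []) 0 0 := by
  have hd := dat_of_gen h e
  -- the values of the derivations
  have hval : ∀ (X : Matrix ρ C ℝ) (Y : Matrix σ C ℝ),
      (w' ∘ Sum.inl) ⬝ᵥ (X *ᵥ (w ∘ e)) + (w' ∘ Sum.inr) ⬝ᵥ (Y *ᵥ (w ∘ e)) = 0 →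
      ∃ D ∈ Tm k [], dm (rowsA M e) D = X ∧ dm (rowsB M e) D = Y := by
    intro X Y hXY
    let Z : Matrix (ρ ⊕ σ) (ρ ⊕ σ) ℝ := fun r s => Sum.elim (fun i => X i (e.symm s))
      (fun i => Y i (e.symm s)) r
    have h1 : w' ⬝ᵥ (Z *ᵥ w) = 0 := by
      rw [← hXY, dotProduct, Fintype.sum_sum_type]
      congr 1
      · refine Finset.sum_congr rfl fun i _ => ?_
        congr 1
        rw [Matrix.mulVec, dotProduct, ← sum_equiv e]
        refine Finset.sum_congr rfl fun c _ => ?_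
        simp [Z]
      · refine Finset.sum_congr rfl fun i _ => ?_
        congr 1
        rw [Matrix.mulVec, dotProduct, ← sum_equiv e]
        refine Finset.sum_congr rfl fun c _ => ?_
        simp [Z]
    obtain ⟨D, hD, hDM⟩ := h.der Z h1
    refine ⟨D, ⟨hD, by simp⟩, ?_, ?_⟩
    · ext i c
      have := hDM (.inl i) (e c)
      rw [dm_apply, rowsA, this]
      simp [Z]
    · ext i c
      have := hDM (.inr i) (e c)
      rw [dm_apply, rowsB, this]
      simp [Z]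
  have hK : (Tm k []).map (dm (rowsA M e)) = ⊤ := by
    rw [eq_top_iff]
    intro X _
    obtain ⟨Y, hY⟩ := exists_ne hd.v0 hd.w0 (-((w' ∘ Sum.inl) ⬝ᵥ (X *ᵥ (w ∘ e))))
    obtain ⟨D, hD, h1, -⟩ := hval X Y (by rw [hY]; ring)
    exact ⟨D, hD, h1⟩
  have hJ : (Tm k []).map (dm (rowsB M e)) = ⊤ := by
    rw [eq_top_iff]
    intro Y _
    obtain ⟨X, hX⟩ := exists_ne hd.u0 hd.w0 (-((w' ∘ Sum.inr) ⬝ᵥ (Y *ᵥ (w ∘ e))))
    obtain ⟨D, hD, -, h1⟩ := hval X Y (by rw [hX]; ring)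
    exact ⟨D, hD, h1⟩
  refine ⟨⟨?_, ?_, ?_, ?_⟩, ?_, ?_, ?_, ?_, ?_, ?_⟩
  · rintro D ⟨hD, -⟩ D' ⟨hD', -⟩
    refine ⟨?_, by simp⟩
    intro x hx
    rw [Derivation.commutator_apply, hD x hx, hD' x hx, map_zero, map_zero, sub_zero]
  · intro X _ Y _ hXY
    exact hval X Y hXY
  · obtain ⟨X, hX⟩ := exists_ne hd.u0 hd.w0 1
    exact ⟨X, by rw [hK]; trivial, by rw [hX]; exact one_ne_zero⟩
  · obtain ⟨Y, hY⟩ := exists_ne hd.v0 hd.w0 1
    exact ⟨Y, by rw [hJ]; trivial, by rw [hY]; exact one_ne_zero⟩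
  · rw [hK, finrank_top, finrank_matrix, finrank_self]
    simp [mul_comm]
  · rw [hJ, finrank_top, finrank_matrix, finrank_self]
    simp [mul_comm]
  · rw [hK, map_mv_top hd.w0, finrank_top, finrank_fintype_fun_eq_card]
    omega
  · rw [hK, map_vm_top hd.u0, finrank_top, finrank_fintype_fun_eq_card]
    omega
  · rw [hJ, map_mv_top hd.w0, finrank_top, finrank_fintype_fun_eq_card]
    omega
  · rw [hJ, map_vm_top hd.v0, finrank_top, finrank_fintype_fun_eq_card]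
    omega

/-- The messages of a conversation: each is determined by the data of one of the computers and
the previous messages. -/
inductive Chain (k : SF) (P : Matrix ρ C ℝ) (Q : Matrix σ C ℝ) : List ℝ → Prop
  | nil : Chain k P Q []
  | A {ms : List ℝ} (m : ℝ) : Chain k P Q ms → (∀ D ∈ Tm k ms, dm P D = 0 → D m = 0) →
      Chain k P Q (ms ++ [m])
  | B {ms : List ℝ} (m : ℝ) : Chain k P Q ms → (∀ D ∈ Tm k ms, dm Q D = 0 → D m = 0) →
      Chain k P Q (ms ++ [m])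

theorem chain_inv [Nonempty ρ] [Nonempty σ] (h : Gen k M w w') (e : C ≃ ρ ⊕ σ) {ms : List ℝ}
    (hc : Chain k (rowsA M e) (rowsB M e) ms) :
    (∃ A B, A + B = ms.length ∧ Inv (rowsA M e) (rowsB M e) (w' ∘ Sum.inl) (w' ∘ Sum.inr)
      (w ∘ e) (Tm k ms) A B) ∨
      (Fintype.card ρ - 2) * (Fintype.card σ - 2) ≤ 4 * (ms.length + 1) := by
  have hd := dat_of_gen h e
  induction hc with
  | nil => exact .inl ⟨0, 0, rfl, base h e⟩
  | @A ms m _ hm ih =>
    rw [Tm_append, List.length_append, List.length_singleton]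
    rcases ih with ⟨A, B, hAB, hi⟩ | ih
    · rcases step hd hi m hm with h1 | h1
      · exact .inl ⟨A + 1, B, by omega, h1⟩
      · right; omega
    · right; omega
  | @B ms m _ hm ih =>
    rw [Tm_append, List.length_append, List.length_singleton]
    rcases ih with ⟨A, B, hAB, hi⟩ | ih
    · rcases step hd.swap hi.swap m hm with h1 | h1
      · exact .inl ⟨A, B + 1, by omega, h1.swap⟩
      · right
        rw [mul_comm] at h1
        omega
    · right; omega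

end

end Run7.h460.LC
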