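import Pool.Agent.H135R2.VS.Alg

set_option autoImplicit false

/-! # One-parameter families of embeddings of finitely generated real fields -/

namespace Run7.h460.LC

open Polynomial Filter Topology Pool.Agent.H135R2.VS
open scoped nonZeroDivisors

section ift

theorem ift1 {f : ℝ × ℝ → ℝ} {t θ c : ℝ} (hf : ContDiffAt ℝ 1 f (t, θ)) (h0 : f (t, θ) = 0)
    (hc : HasDerivAt (fun z => f (t, z)) c θ) (hc0 : c ≠ 0) :
    ∃ φ : ℝ → ℝ, φ t = θ ∧ DifferentiableAt ℝ φ t ∧ ∀ᶠ s in 𝓝 t, f (s, φ s) = 0 := by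
  have hd : HasFDerivAt f (fderiv ℝ f (t, θ)) (t, θ) :=
    (hf.differentiableAt (by simp)).hasFDerivAt
  have h1 : HasFDerivAt (fun z : ℝ => f (t, z)) (fderiv ℝ f (t, θ) ∘L .inr ℝ ℝ ℝ) θ :=
    hd.comp θ (hasFDerivAt_prodMk_right t θ)
  have h2 : fderiv ℝ f (t, θ) ∘L .inr ℝ ℝ ℝ =
      ContinuousLinearMap.smulRight (1 : ℝ →L[ℝ] ℝ) c := h1.unique hc.hasFDerivAt
  have h3 : (fderiv ℝ f (t, θ) ∘L .inr ℝ ℝ ℝ).IsInvertible := by
    rw [h2]
    exact ⟨ContinuousLinearEquiv.unitsEquivAut ℝ (Units.mk0 c hc0), rfl⟩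
  refine ⟨hf.implicitFunction one_ne_zero h3, ?_, ?_, ?_⟩
  · exact hf.implicitFunction_apply_self one_ne_zero h3
  · exact (hf.hasStrictFDerivAt_implicitFunction one_ne_zero h3).hasFDerivAt.differentiableAt
  · have := hf.eventually_apply_implicitFunction one_ne_zero h3
    rw [h0] at this
    exact this

end ift

section rv

variable {F : Type} [Field F] [Algebra F ℝ]

/-- The value of a rational function at a real number. -/
noncomputable def rv (c : RatFunc F) (s : ℝ) : ℝ := aeval s c.num / aeval s c.denom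

theorem nzd {s : ℝ} (hs : Transcendental F s) :
    F[X]⁰ ≤ ℝ⁰.comap (aeval s : F[X] →ₐ[F] ℝ).toRingHom := by
  refine nonZeroDivisors_le_comap_nonZeroDivisors_of_injective _ ?_
  exact transcendental_iff_injective.1 hs

/-- Evaluation of rational functions at a transcendental number. -/
noncomputable def Phi {s : ℝ} (hs : Transcendental F s) : RatFunc F →+* ℝ :=
  RatFunc.liftRingHom (aeval s : F[X] →ₐ[F] ℝ).toRingHom (nzd hs)

theorem Phi_apply {s : ℝ} (hs : Transcendental F s) (c : RatFunc F) : Phi hs c = rv c s := by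
  have h1 : c = algebraMap F[X] (RatFunc F) c.num / algebraMap F[X] (RatFunc F) c.denom :=
    (RatFunc.num_div_denom c).symm
  conv_lhs => rw [h1]
  rw [Phi, RatFunc.liftRingHom_apply_div]
  rfl

theorem denom_ne {s : ℝ} (hs : Transcendental F s) (c : RatFunc F) : aeval s c.denom ≠ 0 := by
  intro h
  exact c.denom_ne_zero (transcendental_iff.1 hs _ h)

theorem contDiff_aeval (p : F[X]) : ContDiff ℝ 1 (fun s : ℝ => aeval s p) := by
  have h : (fun s : ℝ => aeval s p) = fun s => (p.map (algebraMap F ℝ)).eval s := by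
    ext s; rw [eval_map_algebraMap]
  rw [h]
  simp only [eval_eq_sum_range]
  exact ContDiff.sum fun i _ => contDiff_const.mul (contDiff_id.pow i)

theorem hasDerivAt_aeval (p : F[X]) (t : ℝ) :
    HasDerivAt (fun s : ℝ => aeval s p) (aeval t (derivative p)) t := by
  have h : (fun s : ℝ => aeval s p) = fun s => (p.map (algebraMap F ℝ)).eval s := by
    ext s; rw [eval_map_algebraMap]
  rw [h]
  have := (p.map (algebraMap F ℝ)).hasDerivAt t
  rw [derivative_map, eval_map_algebraMap] at this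
  exact this

theorem contDiff_rv {t : ℝ} (ht : Transcendental F t) (c : RatFunc F) :
    ContDiffAt ℝ 1 (rv c) t :=
  (contDiff_aeval c.num).contDiffAt.div (contDiff_aeval c.denom).contDiffAt (denom_ne ht c)

/-- The values of a polynomial over the field of rational functions. -/
noncomputable def pv (p : (RatFunc F)[X]) (x : ℝ × ℝ) : ℝ :=
  ∑ i ∈ Finset.range (p.natDegree + 1), rv (p.coeff i) x.1 * x.2 ^ i

theorem pv_eq {s : ℝ} (hs : Transcendental F s) (p : (RatFunc F)[X]) (z : ℝ) :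
    pv p (s, z) = eval₂ (Phi hs) z p := by
  rw [eval₂_eq_sum_range, pv]
  refine Finset.sum_congr rfl fun i _ => ?_
  rw [Phi_apply]

theorem contDiff_pv {t : ℝ} (ht : Transcendental F t) (p : (RatFunc F)[X]) (z : ℝ) :
    ContDiffAt ℝ 1 (pv p) (t, z) := by
  unfold pv
  refine ContDiffAt.sum fun i _ => ?_
  refine ContDiffAt.mul ?_ (contDiffAt_snd.pow i)
  exact (contDiff_rv ht (p.coeff i)).comp (t, z) contDiffAt_fst

theorem hasDerivAt_pv {t : ℝ} (ht : Transcendental F t) (p : (RatFunc F)[X]) (z : ℝ) :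
    HasDerivAt (fun z => pv p (t, z)) (eval₂ (Phi ht) z (derivative p)) z := by
  have h1 : (fun z => pv p (t, z)) = fun z => (p.map (Phi ht)).eval z := by
    ext z; rw [pv_eq ht, eval_map]
  rw [h1]
  have := (p.map (Phi ht)).hasDerivAt z
  rw [derivative_map, eval_map] at this
  exact this

/-- The derivative of a rational function is given by the derivation. -/
theorem hasDerivAt_rv {t : ℝ} (ht : Transcendental F t) (D : Derivation F ℝ ℝ) (hD : D t = 1)
    (c : RatFunc F) : HasDerivAt (rv c) (D (rv c t)) t := by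
  have h1 := (hasDerivAt_aeval c.num t).div (hasDerivAt_aeval c.denom t) (denom_ne ht c)
  have h2 : D (rv c t) = (aeval t (derivative c.num) * aeval t c.denom -
      aeval t c.num * aeval t (derivative c.denom)) / (aeval t c.denom) ^ 2 := by
    rw [rv, Derivation.leibniz_div, Derivation.map_aeval, Derivation.map_aeval, hD]
    simp only [smul_eq_mul, mul_one]
    rw [div_eq_inv_mul, inv_pow]
    ring
  rw [h2]
  exact h1

end rv

section fam

variable {F : Type} [Field F] [CharZero F] [Algebra F ℝ]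

/-- A family of functions which behaves at the points of `S` like at the point `t`. -/
structure Fam (F : Type) [Field F] [Algebra F ℝ] (t : ℝ) (S : Set ℝ) (G : Set (ℝ → ℝ)) : Prop where
  mem : t ∈ S
  right : (𝓝[S ∩ Set.Ioi t] t).NeBot
  left : (𝓝[S ∩ Set.Iio t] t).NeBot
  add : ∀ h ∈ G, ∀ h' ∈ G, (fun s => h s + h' s) ∈ G
  mul : ∀ h ∈ G, ∀ h' ∈ G, (fun s => h s * h' s) ∈ G
  inv : ∀ h ∈ G, (fun s => (h s)⁻¹) ∈ G
  const : ∀ c : F, (fun _ => algebraMap F ℝ c) ∈ G
  zero : ∀ h ∈ G, h t = 0 → ∀ s ∈ S, h s = 0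
  lim : ∀ h ∈ G, Tendsto h (𝓝[S] t) (𝓝 (h t))

omit [CharZero F] in
theorem deriv_pv {t θ φ' : ℝ} (ht : Transcendental F t) (D : Derivation F ℝ ℝ) (hD : D t = 1)
    {φ : ℝ → ℝ} (hφt : φ t = θ) (hφ : HasDerivAt φ φ' t) (p : (RatFunc F)[X]) :
    ∃ A B : ℝ, HasDerivAt (fun s => pv p (s, φ s)) (A + B * φ') t ∧
      D (pv p (t, θ)) = A + B * D θ ∧ HasDerivAt (fun z => pv p (t, z)) B θ := by
  refine ⟨∑ i ∈ Finset.range (p.natDegree + 1), D (rv (p.coeff i) t) * θ ^ i,
    ∑ i ∈ Finset.range (p.natDegree + 1), rv (p.coeff i) t * (i * θ ^ (i - 1)), ?_, ?_, ?_⟩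
  · have h1 : ∀ i ∈ Finset.range (p.natDegree + 1),
        HasDerivAt (fun s => rv (p.coeff i) s * φ s ^ i)
          (D (rv (p.coeff i) t) * θ ^ i + rv (p.coeff i) t * (i * θ ^ (i - 1) * φ')) t := by
      intro i _
      have h2 := (hasDerivAt_rv ht D hD (p.coeff i)).mul (hφ.pow i)
      simp only [Pi.pow_apply, hφt] at h2
      exact h2
    have h3 := HasDerivAt.sum h1
    have h4 : (∑ i ∈ Finset.range (p.natDegree + 1),
        (D (rv (p.coeff i) t) * θ ^ i + rv (p.coeff i) t * (i * θ ^ (i - 1) * φ'))) =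
        ∑ i ∈ Finset.range (p.natDegree + 1), D (rv (p.coeff i) t) * θ ^ i +
        (∑ i ∈ Finset.range (p.natDegree + 1), rv (p.coeff i) t * (i * θ ^ (i - 1))) * φ' := by
      rw [Finset.sum_add_distrib, Finset.sum_mul]
      congr 1
      exact Finset.sum_congr rfl fun i _ => by ring
    rw [h4] at h3
    have h5 : (fun s => pv p (s, φ s)) = ∑ i ∈ Finset.range (p.natDegree + 1),
        fun s => rv (p.coeff i) s * φ s ^ i := by
      ext s
      simp only [pv, Finset.sum_apply]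
    rw [h5]
    exact h3
  · simp only [pv, map_sum, Derivation.leibniz, Derivation.leibniz_pow, smul_eq_mul,
      nsmul_eq_mul]
    rw [Finset.sum_mul, ← Finset.sum_add_distrib]
    exact Finset.sum_congr rfl fun i _ => by ring
  · have h1 : ∀ i ∈ Finset.range (p.natDegree + 1),
        HasDerivAt (fun z => rv (p.coeff i) t * z ^ i)
          (rv (p.coeff i) t * (i * θ ^ (i - 1))) θ := by
      intro i _
      exact (hasDerivAt_pow i θ).const_mul _
    have h3 := HasDerivAt.sum h1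
    have h5 : (fun z => pv p (t, z)) = ∑ i ∈ Finset.range (p.natDegree + 1),
        fun z => rv (p.coeff i) t * z ^ i := by
      ext s
      simp only [pv, Finset.sum_apply]
    rw [h5]
    exact h3

omit [CharZero F] in
theorem trans_add {t : ℝ} (ht : Transcendental F t) (r : ℚ) : Transcendental F (t + r) := by
  have h1 : ((r : ℚ) : ℝ) = algebraMap F ℝ (r : F) := (map_ratCast _ r).symm
  rw [h1]
  intro h
  apply ht
  have h2 : IsAlgebraic F (algebraMap F ℝ (r : F)) := isAlgebraic_algebraMap _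
  have h3 := h.sub h2
  rwa [add_sub_cancel_right] at h3

/-- Families with prescribed algebraic members. -/
theorem exists_fam {t : ℝ} (ht : Transcendental F t) (D : Derivation F ℝ ℝ) (hD : D t = 1)
    {ι : Type} [Finite ι] (P : ι → ℝ)
    (hP : ∀ i, @IsAlgebraic (RatFunc F) ℝ _ _ (Phi ht).toAlgebra (P i)) :
    ∃ (S : Set ℝ) (G : Set (ℝ → ℝ)) (Pf : ι → ℝ → ℝ), Fam F t S G ∧ (∀ i, Pf i ∈ G) ∧
      (∀ i, Pf i t = P i) ∧ ∀ i, HasDerivAt (Pf i) (D (P i)) t := by
  classical
  let _ : Algebra (RatFunc F) ℝ := (Phi ht).toAlgebra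
  have hmap : ∀ c, algebraMap (RatFunc F) ℝ c = Phi ht c := fun c => rfl
  -- a primitive element
  obtain ⟨θ, hθ, hθP⟩ : ∃ θ : ℝ, IsIntegral (RatFunc F) θ ∧
      ∀ i, ∃ p : (RatFunc F)[X], aeval θ p = P i := by
    let E := IntermediateField.adjoin (RatFunc F) (Set.range P)
    have hfin : FiniteDimensional (RatFunc F) E := by
      refine IntermediateField.finiteDimensional_adjoin ?_
      rintro _ ⟨i, rfl⟩
      exact (hP i).isIntegral
    obtain ⟨α, hα⟩ := Field.exists_primitive_element (RatFunc F) E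
    have hαi : IsIntegral (RatFunc F) α := Algebra.IsIntegral.isIntegral α
    refine ⟨α, hαi.map (IntermediateField.val E), fun i => ?_⟩
    have h1 : (⟨P i, IntermediateField.subset_adjoin _ _ ⟨i, rfl⟩⟩ : E) ∈
        (⊤ : IntermediateField (RatFunc F) E) := trivial
    rw [← hα] at h1
    have h2 : (⟨P i, IntermediateField.subset_adjoin _ _ ⟨i, rfl⟩⟩ : E) ∈
        (IntermediateField.adjoin (RatFunc F) {α}).toSubalgebra := h1
    rw [IntermediateField.adjoin_simple_toSubalgebra_of_isAlgebraic hαi.isAlgebraic,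
      Algebra.adjoin_singleton_eq_range_aeval] at h2
    obtain ⟨p, hp⟩ := h2
    refine ⟨p, ?_⟩
    have h3 : IntermediateField.val E (aeval α p) = P i :=
      congrArg (IntermediateField.val E) hp
    rw [← Polynomial.aeval_algHom_apply] at h3
    exact h3
  choose p hp using hθP
  set q := minpoly (RatFunc F) θ with hq
  have hqirr : Irreducible q := minpoly.irreducible hθ
  have hq0 : pv q (t, θ) = 0 := by
    rw [pv_eq ht]
    exact minpoly.aeval (RatFunc F) θ
  have hqd : eval₂ (Phi ht) θ (derivative q) ≠ 0 :=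
    hqirr.separable.aeval_derivative_ne_zero (minpoly.aeval (RatFunc F) θ)
  obtain ⟨φ, hφt, hφd, hφ⟩ := ift1 (contDiff_pv ht q θ) hq0 (hasDerivAt_pv ht q θ) hqd
  -- the derivative of the implicit function
  have hφ' : deriv φ t = D θ := by
    obtain ⟨A, B, h1, h2, h3⟩ := deriv_pv ht D hD hφt hφd.hasDerivAt q
    have h4 : HasDerivAt (fun s => pv q (s, φ s)) 0 t :=
      (hasDerivAt_const t (0 : ℝ)).congr_of_eventuallyEq hφ
    have h5 := h1.unique h4
    rw [hq0, map_zero] at h2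
    have h6 : B ≠ 0 := by
      rw [h3.unique (hasDerivAt_pv ht q θ)]
      exact hqd
    have h7 : B * (deriv φ t - D θ) = 0 := by linarith
    rcases mul_eq_zero.1 h7 with h8 | h8
    · exact absurd h8 h6
    · linarith
  have hφD : HasDerivAt φ (D θ) t := by
    rw [← hφ']
    exact hφd.hasDerivAt
  -- the set of parameters
  let S : Set ℝ := {s | (∃ r : ℚ, s = t + r) ∧ pv q (s, φ s) = 0}
  have hStr : ∀ s ∈ S, Transcendental F s := by
    rintro s ⟨⟨r, rfl⟩, _⟩
    exact trans_add ht r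
  let G : Set (ℝ → ℝ) := {h | ∃ p : (RatFunc F)[X], ∀ s ∈ S, h s = pv p (s, φ s)}
  have htS : t ∈ S := ⟨⟨0, by simp⟩, by rw [hφt]; exact hq0⟩
  have : Fact (Irreducible q) := ⟨hqirr⟩
  have hj : ∀ (s : ℝ) (hs : s ∈ S), eval₂ (Phi (hStr s hs)) (φ s) q = 0 := by
    intro s hs
    rw [← pv_eq]
    exact hs.2
  refine ⟨S, G, fun i s => pv (p i) (s, φ s), ⟨htS, ?_, ?_, ?_, ?_, ?_, ?_, ?_, ?_⟩, ?_, ?_, ?_⟩
  · -- there are parameters near `t`
    rw [mem_closure_iff_nhdsWithin_neBot.symm, Metric.mem_closure_iff]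
    intro ε hε
    obtain ⟨δ, hδ, hball⟩ := Metric.eventually_nhds_iff.1 hφ
    obtain ⟨r, hr0, hr⟩ := exists_rat_btwn (lt_min hε hδ)
    refine ⟨t + r, ⟨⟨⟨r, rfl⟩, hball ?_⟩, ?_⟩, ?_⟩
    · rw [Real.dist_eq, add_sub_cancel_left, abs_of_pos hr0]
      exact hr.trans_le (min_le_right _ _)
    · change t < t + r
      linarith
    · rw [dist_comm, Real.dist_eq, add_sub_cancel_left, abs_of_pos hr0]
      exact hr.trans_le (min_le_left _ _)
  · rw [mem_closure_iff_nhdsWithin_neBot.symm, Metric.mem_closure_iff]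
    intro ε hε
    obtain ⟨δ, hδ, hball⟩ := Metric.eventually_nhds_iff.1 hφ
    obtain ⟨r, hr, hr0⟩ := exists_rat_btwn (neg_lt_zero.2 (lt_min hε hδ))
    have hr' : -(r : ℝ) < min ε δ := by linarith
    refine ⟨t + r, ⟨⟨⟨r, rfl⟩, hball ?_⟩, ?_⟩, ?_⟩
    · rw [Real.dist_eq, add_sub_cancel_left, abs_of_neg hr0]
      exact hr'.trans_le (min_le_right _ _)
    · change t + r < t
      linarith
    · rw [dist_comm, Real.dist_eq, add_sub_cancel_left, abs_of_neg hr0]
      exact hr'.trans_le (min_le_left _ _)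
  · rintro h ⟨a, ha⟩ h' ⟨b, hb⟩
    refine ⟨a + b, fun s hs => ?_⟩
    beta_reduce
    rw [ha s hs, hb s hs, pv_eq (hStr s hs), pv_eq (hStr s hs), pv_eq (hStr s hs), eval₂_add]
  · rintro h ⟨a, ha⟩ h' ⟨b, hb⟩
    refine ⟨a * b, fun s hs => ?_⟩
    beta_reduce
    rw [ha s hs, hb s hs, pv_eq (hStr s hs), pv_eq (hStr s hs), pv_eq (hStr s hs), eval₂_mul]
  · rintro h ⟨a, ha⟩
    obtain ⟨b, hb⟩ := AdjoinRoot.mk_surjective (g := q) ((AdjoinRoot.mk q a)⁻¹)
    refine ⟨b, fun s hs => ?_⟩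
    beta_reduce
    rw [ha s hs, pv_eq (hStr s hs), pv_eq (hStr s hs)]
    have h1 := congrArg (AdjoinRoot.lift (Phi (hStr s hs)) (φ s) (hj s hs)) hb
    rw [map_inv₀, AdjoinRoot.lift_mk, AdjoinRoot.lift_mk] at h1
    exact h1.symm
  · intro c
    refine ⟨C (algebraMap F (RatFunc F) c), fun s hs => ?_⟩
    rw [pv_eq (hStr s hs), eval₂_C, Phi_apply, rv, RatFunc.algebraMap_eq_C, RatFunc.num_C,
      RatFunc.denom_C, aeval_C, map_one, div_one]
  · rintro h ⟨a, ha⟩ h0 s hs
    rw [ha s hs]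
    have h1 : aeval θ a = 0 := by
      have h2 := ha t htS
      rw [h0, hφt, pv_eq ht] at h2
      exact h2.symm
    obtain ⟨b, hb⟩ := minpoly.dvd (RatFunc F) θ h1
    rw [hb, pv_eq (hStr s hs), eval₂_mul, hj s hs, zero_mul]
  · rintro h ⟨a, ha⟩
    obtain ⟨A, B, h1, -, -⟩ := deriv_pv ht D hD hφt hφD a
    have h2 : Tendsto (fun s => pv a (s, φ s)) (𝓝[S] t) (𝓝 (pv a (t, φ t))) :=
      h1.continuousAt.tendsto.mono_left nhdsWithin_le_nhds
    rw [← ha t htS] at h2
    refine h2.congr' ?_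
    filter_upwards [self_mem_nhdsWithin] with s hs
    exact (ha s hs).symm
  · intro i
    exact ⟨p i, fun s _ => rfl⟩
  · intro i
    change pv (p i) (t, φ t) = P i
    rw [hφt, pv_eq ht]
    exact hp i
  · intro i
    obtain ⟨A, B, h1, h2, -⟩ := deriv_pv ht D hD hφt hφD (p i)
    rw [← h2] at h1
    have h3 : pv (p i) (t, θ) = P i := by
      rw [pv_eq ht]
      exact hp i
    rw [h3] at h1
    exact h1

end fam

end Run7.h460.LC
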