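import Pool.Agent.Run7.h460.LC.Emb

set_option autoImplicit false

/-! # Families of embeddings which move a given linear form -/

namespace Run7.h460.LC

open Polynomial Filter Topology Pool.Agent.H135R2.VS

/-- A family of functions which behaves at the points of `S` near `t` like at the point `t`, and
contains the constants in `F`. -/
structure Fml (F : SF) (t : ℝ) (S : Set ℝ) (G : Set (ℝ → ℝ)) : Prop where
  mem : t ∈ S
  right : (𝓝[S ∩ Set.Ioi t] t).NeBot
  left : (𝓝[S ∩ Set.Iio t] t).NeBot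
  add : ∀ h ∈ G, ∀ h' ∈ G, (fun s => h s + h' s) ∈ G
  mul : ∀ h ∈ G, ∀ h' ∈ G, (fun s => h s * h' s) ∈ G
  inv : ∀ h ∈ G, (fun s => (h s)⁻¹) ∈ G
  const : ∀ c ∈ F, (fun _ => c) ∈ G
  zero : ∀ h ∈ G, h t = 0 → ∀ s ∈ S, h s = 0
  lim : ∀ h ∈ G, Tendsto h (𝓝[S] t) (𝓝 (h t))

theorem algInd_singleton {F : SF} {x : ℝ} (hx : Transcendental F x) :
    AlgebraicIndependent F (fun _ : Unit => x) := by
  rw [algebraicIndependent_unique_type_iff]
  exact hx

/-- A number transcendental over `F` is moved by a derivation which vanishes on `F`. -/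
theorem exists_der_trans {F : SF} {x : ℝ} (hx : Transcendental F x) :
    ∃ D : Derivation ℚ ℝ ℝ, Van F D ∧ D x = 1 := by
  obtain ⟨D, h1, h2⟩ := exists_derK (algInd_singleton hx) (fun _ => 1)
  exact ⟨D, h1, h2 ()⟩

/-- A derivation which vanishes on a field, as a derivation over that field. -/
theorem exists_derF {F : SF} (D : Derivation ℚ ℝ ℝ) (hD : Van F D) :
    ∃ D' : Derivation F ℝ ℝ, ∀ x, D' x = D x := by
  refine ⟨Derivation.mk' (R := F) { D with map_smul' := ?_ } ?_, fun x => rfl⟩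
  · intro k x
    change D ((k : ℝ) * x) = (k : ℝ) * D x
    rw [Derivation.leibniz, hD k k.2]
    simp
  · intro a b
    exact D.leibniz a b

/-- A number moved by a derivation which vanishes on `F` is transcendental over `F`. -/
theorem trans_of_der {F : SF} {x : ℝ} {D : Derivation ℚ ℝ ℝ} (hD : Van F D) (hx : D x ≠ 0) :
    Transcendental F x := by
  intro hal
  obtain ⟨D', hD'⟩ := exists_derF D hD
  have hi : IsIntegral F x := hal.isIntegral
  have h1 : aeval x (minpoly F x) = 0 := minpoly.aeval F x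
  have h2 := congrArg D' h1
  rw [Derivation.map_aeval, map_zero, smul_eq_mul, hD'] at h2
  have h3 : aeval x (derivative (minpoly F x)) ≠ 0 :=
    (minpoly.irreducible hi).separable.aeval_derivative_ne_zero h1
  rcases mul_eq_zero.1 h2 with h | h
  · exact h3 h
  · exact hx h

/-- The field generated by `F` and `t` consists of the values of the rational functions. -/
theorem mem_range_Phi {F : SF} {t : ℝ} (ht : Transcendental F t) {x : ℝ} (hx : x ∈ adj F {t}) :
    x ∈ (Phi ht).fieldRange := by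
  have hC : ∀ c : F, (c : ℝ) ∈ (Phi ht).fieldRange := by
    intro c
    refine ⟨RatFunc.C c, ?_⟩
    rw [Phi_apply, rv, RatFunc.num_C, RatFunc.denom_C, aeval_C, map_one, div_one]
    rfl
  induction hx using IntermediateField.adjoin_induction with
  | mem x hx =>
    rcases hx with hx | hx
    · exact hC ⟨x, hx⟩
    · rw [Set.mem_singleton_iff] at hx
      subst hx
      refine ⟨RatFunc.X, ?_⟩
      rw [Phi_apply, rv, RatFunc.num_X, RatFunc.denom_X, aeval_X, map_one, div_one]
  | algebraMap x =>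
    exact hC (algebraMap ℚ F x)
  | add x y _ _ hx hy => exact add_mem hx hy
  | inv x _ hx => exact inv_mem hx
  | mul x y _ _ hx hy => exact mul_mem hx hy

theorem isAlgebraic_Phi {F : SF} {t : ℝ} (ht : Transcendental F t) {x : ℝ}
    (hx : IsAlgebraic (adj F {t}) x) :
    @IsAlgebraic (RatFunc F) ℝ _ _ (Phi ht).toAlgebra x := by
  let _ : Algebra (RatFunc F) ℝ := (Phi ht).toAlgebra
  obtain ⟨p, hp0, hp⟩ := hx
  have h1 : p.map (algebraMap (adj F {t}) ℝ) ∈ lifts (Phi ht) := by
    rw [lifts_iff_coeff_lifts]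
    intro n
    rw [coeff_map]
    exact mem_range_Phi ht (p.coeff n).2
  obtain ⟨q, hq⟩ := (mem_lifts _).1 h1
  refine ⟨q, ?_, ?_⟩
  · rintro rfl
    rw [Polynomial.map_zero] at hq
    exact hp0 ((Polynomial.map_eq_zero_iff (algebraMap (adj F {t}) ℝ).injective).1 hq.symm)
  · change eval₂ (Phi ht) x q = 0
    rw [← eval_map, hq, eval_map]
    exact hp

variable {ι : Type} [Fintype ι]

/-- If a derivation which vanishes on `F` moves a linear form in the numbers `P i`, then there is
a family of functions, behaving like the numbers, along which the form moves. -/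
theorem exists_fml (F : SF) (P l : ι → ℝ) (D : Derivation ℚ ℝ ℝ) (hD : Van F D)
    (hl : ∑ i, l i * D (P i) ≠ 0) :
    ∃ (t : ℝ) (S : Set ℝ) (G : Set (ℝ → ℝ)) (Pf : ι → ℝ → ℝ) (d : ι → ℝ), Fml F t S G ∧
      (∀ i, Pf i ∈ G) ∧ (∀ i, Pf i t = P i) ∧ (∀ i, HasDerivAt (Pf i) (d i) t) ∧
      ∑ i, l i * d i ≠ 0 := by
  classical
  -- a maximal set of numbers which can be kept
  let good : Finset ι → Prop := fun s =>
    ∃ D : Derivation ℚ ℝ ℝ, Van (adj F (P '' s)) D ∧ ∑ i, l i * D (P i) ≠ 0
  have h0 : good ∅ := by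
    refine ⟨D, ?_, hl⟩
    apply van_adj hD
    simp
  obtain ⟨s, -, hs⟩ := (Finset.univ.filter good).exists_le_maximal
    (Finset.mem_filter.2 ⟨Finset.mem_univ _, h0⟩)
  have hsg : good s := (Finset.mem_filter.1 hs.1).2
  have hmax : ∀ i, i ∉ s → ¬ good (insert i s) := by
    intro i hi hg
    have h1 := hs.2 (Finset.mem_filter.2 ⟨Finset.mem_univ _, hg⟩) (Finset.subset_insert i s)
    exact hi (h1 (Finset.mem_insert_self i s))
  obtain ⟨E, hE, hEl⟩ := hsg
  set F' := adj F (P '' s) with hF'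
  obtain ⟨i, -, hi⟩ := Finset.exists_ne_zero_of_sum_ne_zero hEl
  have hEi : E (P i) ≠ 0 := right_ne_zero_of_mul hi
  have ht : Transcendental F' (P i) := trans_of_der hE hEi
  have his : i ∉ s := fun h => hEi (hE _ (mem_adj F ⟨i, h, rfl⟩))
  have hvan : ∀ (j : ι) (E' : Derivation ℚ ℝ ℝ), Van F' E' → E' (P j) = 0 →
      Van (adj F (P '' (insert j s : Finset ι))) E' := by
    intro j E' h1 h2
    apply van_adj (h1.mono (le_adj F _))
    rintro _ ⟨x, hx, rfl⟩
    rcases Finset.mem_insert.1 (Finset.mem_coe.1 hx) with h | h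
    · rw [h]; exact h2
    · exact h1 _ (mem_adj F ⟨x, h, rfl⟩)
  have halg : ∀ j, IsAlgebraic (adj F' {P i}) (P j) := by
    intro j
    by_contra hj
    obtain ⟨E', hE', hE'j⟩ := exists_der_trans (F := adj F' {P i}) (x := P j) hj
    have hE'F : Van F' E' := hE'.mono (le_adj F' _)
    have hE'i : E' (P i) = 0 := hE' _ (mem_adj F' rfl)
    have hjs : j ∉ s := by
      intro h
      have := hE'F _ (mem_adj F ⟨j, h, rfl⟩)
      rw [hE'j] at this
      exact one_ne_zero this
    have h1 : ∑ i, l i * E' (P i) = 0 := by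
      by_contra h
      exact hmax i his ⟨E', hvan i E' hE'F hE'i, h⟩
    refine hmax j hjs ⟨E + (-E (P j)) • E', hvan j _ (hE.add (hE'F.smul _)) ?_, ?_⟩
    · rw [Derivation.add_apply, Derivation.smul_apply, hE'j, smul_eq_mul]
      ring
    · have h2 : ∑ i, l i * (E + (-E (P j)) • E') (P i) =
          ∑ i, l i * E (P i) + (-E (P j)) * ∑ i, l i * E' (P i) := by
        rw [Finset.mul_sum, ← Finset.sum_add_distrib]
        refine Finset.sum_congr rfl fun x _ => ?_
        rw [Derivation.add_apply, Derivation.smul_apply, smul_eq_mul]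
        ring
      rw [h2, h1, mul_zero, add_zero]
      exact hEl
  obtain ⟨D', hD'⟩ := exists_derF ((E (P i))⁻¹ • E) (hE.smul _)
  have hD't : D' (P i) = 1 := by
    rw [hD', Derivation.smul_apply, smul_eq_mul, inv_mul_cancel₀ hEi]
  obtain ⟨S, G, Pf, hG, h1, h2, h3⟩ := exists_fam ht D' hD't P
    (fun j => isAlgebraic_Phi ht (halg j))
  refine ⟨P i, S, G, Pf, fun j => D' (P j), ⟨hG.mem, hG.right, hG.left, hG.add, hG.mul, hG.inv, ?_,
    hG.zero, hG.lim⟩, h1, h2, h3, ?_⟩
  · intro c hc
    exact hG.const (⟨c, le_adj F _ hc⟩ : F')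
  · have h4 : ∑ j, l j * D' (P j) = (E (P i))⁻¹ * ∑ j, l j * E (P j) := by
      rw [Finset.mul_sum]
      refine Finset.sum_congr rfl fun x _ => ?_
      rw [hD', Derivation.smul_apply, smul_eq_mul]
      ring
    rw [h4]
    exact mul_ne_zero (inv_ne_zero hEi) hEl

end Run7.h460.LC
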