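import Pool.Agent.Run7.h460.LC.Mat
import Pool.Agent.H135R2.VS.Alg

set_option autoImplicit false
set_option linter.unusedSectionVars false

/-! # How the messages cut down the tangent directions -/

namespace Run7.h460.LC

open Module Matrix Pool.Agent.H135R2.VS

abbrev Der := Derivation ℚ ℝ ℝ

noncomputable section

section basic

variable {ρ C : Type}

/-- The entrywise derivative of a matrix. -/
def dm (P : Matrix ρ C ℝ) : Der →ₗ[ℝ] Matrix ρ C ℝ where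
  toFun D := fun i j => D (P i j)
  map_add' _ _ := rfl
  map_smul' _ _ := rfl

/-- The entrywise derivative of a vector. -/
def dv (w : C → ℝ) : Der →ₗ[ℝ] (C → ℝ) where
  toFun D := fun j => D (w j)
  map_add' _ _ := rfl
  map_smul' _ _ := rfl

/-- The derivative of a number. -/
def de (m : ℝ) : Der →ₗ[ℝ] ℝ where
  toFun D := D m
  map_add' _ _ := rfl
  map_smul' _ _ := rfl

theorem dm_apply (P : Matrix ρ C ℝ) (D : Der) (i : ρ) (j : C) : dm P D i j = D (P i j) := rfl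
theorem dv_apply (w : C → ℝ) (D : Der) (j : C) : dv w D j = D (w j) := rfl
theorem de_apply (m : ℝ) (D : Der) : de m D = D m := rfl

variable [Fintype ρ] [Fintype C]

theorem dv_mulVec (X : Matrix ρ C ℝ) (z : C → ℝ) (D : Der) :
    dv (X *ᵥ z) D = dm X D *ᵥ z + X *ᵥ dv z D := by
  ext i
  simp only [dv_apply, Matrix.mulVec, dotProduct, Pi.add_apply, map_sum, Derivation.leibniz,
    smul_eq_mul, dm_apply]
  rw [← Finset.sum_add_distrib]
  exact Finset.sum_congr rfl fun j _ => by ring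

theorem dv_vecMul (u : ρ → ℝ) (X : Matrix ρ C ℝ) (D : Der) :
    dv (u ᵥ* X) D = dv u D ᵥ* X + u ᵥ* dm X D := by
  ext i
  simp only [dv_apply, Matrix.vecMul, dotProduct, Pi.add_apply, map_sum, Derivation.leibniz,
    smul_eq_mul, dm_apply]
  rw [← Finset.sum_add_distrib]
  exact Finset.sum_congr rfl fun j _ => by ring

theorem de_dot (u z : C → ℝ) (D : Der) : D (u ⬝ᵥ z) = dv u D ⬝ᵥ z + u ⬝ᵥ dv z D := by
  simp only [dotProduct, map_sum, Derivation.leibniz, smul_eq_mul, dv_apply]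
  rw [← Finset.sum_add_distrib]
  exact Finset.sum_congr rfl fun j _ => by ring

theorem dv_zero (D : Der) : dv (0 : C → ℝ) D = 0 := by
  ext j
  exact D.map_zero

/-- Closed under the bracket. -/
def Cl (T : Submodule ℝ Der) : Prop := ∀ D ∈ T, ∀ D' ∈ T, ⁅D, D'⁆ ∈ T

theorem Cl.inf_de {T : Submodule ℝ Der} (h : Cl T) (m : ℝ) : Cl (T ⊓ LinearMap.ker (de m)) := by
  rintro D ⟨hD, hDm⟩ D' ⟨hD', hDm'⟩
  refine ⟨h D hD D' hD', ?_⟩
  change D m = 0 at hDm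
  change D' m = 0 at hDm'
  change ⁅D, D'⁆ m = 0
  rw [Derivation.commutator_apply, hDm, hDm', map_zero, map_zero, sub_zero]

theorem stab {T : Submodule ℝ Der} (h : Cl T) {P : Matrix ρ C ℝ} {D : Der} (hD : D ∈ T)
    (hP : dm P D = 0) {X : Matrix ρ C ℝ} (hX : X ∈ T.map (dm P)) : dm X D ∈ T.map (dm P) := by
  obtain ⟨D', hD', rfl⟩ := hX
  refine ⟨⁅D, D'⁆, h D hD D' hD', ?_⟩
  ext i j
  rw [dm_apply, dm_apply, dm_apply, Derivation.commutator_apply]
  have h1 : D (P i j) = 0 := congrFun (congrFun hP i) j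
  rw [h1, map_zero, sub_zero]

/-- One more message costs at most one dimension. -/
theorem codim_le (T : Submodule ℝ Der) (m : ℝ) (P : Matrix ρ C ℝ) :
    finrank ℝ (T.map (dm P)) ≤ finrank ℝ ((T ⊓ LinearMap.ker (de m)).map (dm P)) + 1 := by
  by_cases h : ∃ D₁ ∈ T, D₁ m ≠ 0
  · obtain ⟨D₁, hD₁, hm⟩ := h
    have h1 : T.map (dm P) ≤ (T ⊓ LinearMap.ker (de m)).map (dm P) ⊔ (ℝ ∙ dm P D₁) := by
      rintro _ ⟨D, hD, rfl⟩
      have h2 : D - (D m / D₁ m) • D₁ ∈ T ⊓ LinearMap.ker (de m) := by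
        refine ⟨T.sub_mem hD (T.smul_mem _ hD₁), ?_⟩
        change (D - (D m / D₁ m) • D₁) m = 0
        rw [Derivation.sub_apply, Derivation.smul_apply,
          smul_eq_mul, div_mul_cancel₀ _ hm, sub_self]
      have h3 : dm P D = dm P (D - (D m / D₁ m) • D₁) + (D m / D₁ m) • dm P D₁ := by
        rw [map_sub, map_smul, sub_add_cancel]
      rw [h3]
      exact Submodule.add_mem_sup ⟨_, h2, rfl⟩
        (Submodule.smul_mem _ _ (Submodule.mem_span_singleton_self _))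
    refine (Submodule.finrank_mono h1).trans ((Submodule.finrank_add_le_finrank_add_finrank _ _).trans ?_)
    gcongr
    exact (finrank_span_le_card ({dm P D₁} : Set (Matrix ρ C ℝ))).trans (by simp)
  · push Not at h
    have h1 : T ⊓ LinearMap.ker (de m) = T := by
      rw [inf_eq_left]
      intro D hD
      exact h D hD
    rw [h1]
    omega

end basic

section bounds

variable {ρ C : Type} [Fintype ρ] [Fintype C] [DecidableEq ρ] [DecidableEq C]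

/-- The directions which fix the matrix `P`. -/
abbrev fix (T : Submodule ℝ Der) (P : Matrix ρ C ℝ) : Submodule ℝ Der :=
  T ⊓ LinearMap.ker (dm P)

theorem lemA {T : Submodule ℝ Der} (h : Cl T) (P : Matrix ρ C ℝ) (w : C → ℝ) (hw : w ≠ 0) :
    finrank ℝ (T.map (dm P)) +
      finrank ℝ ((ℝ ∙ w) ⊔ (fix T P).map (dv w) : Submodule ℝ (C → ℝ)) * Fintype.card ρ ≤
      Fintype.card C * Fintype.card ρ +
      finrank ℝ ((ℝ ∙ w) ⊔ (fix T P).map (dv w) : Submodule ℝ (C → ℝ)) *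
        finrank ℝ ((T.map (dm P)).map (mv w)) := by
  refine linCM _ w hw _ (Submodule.mem_sup_left (Submodule.mem_span_singleton_self w)) ?_
  intro X hX hXw x hx
  have h1 : ((ℝ ∙ w) ⊔ (fix T P).map (dv w) : Submodule ℝ (C → ℝ)) ≤
      ((T.map (dm P)).map (mv w)).comap X.mulVecLin := by
    refine sup_le ?_ ?_
    · rw [Submodule.span_singleton_le_iff_mem, Submodule.mem_comap, Matrix.mulVecLin_apply, hXw]
      exact Submodule.zero_mem _
    · rintro _ ⟨D, ⟨hD, hDP⟩, rfl⟩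
      rw [Submodule.mem_comap, Matrix.mulVecLin_apply]
      have h2 := dv_mulVec X w D
      rw [hXw, dv_zero] at h2
      have h3 : X *ᵥ dv w D = - (dm X D *ᵥ w) := (neg_eq_of_add_eq_zero_right h2.symm).symm
      rw [h3]
      exact Submodule.neg_mem _ ⟨dm X D, stab h hD hDP hX, rfl⟩
  exact h1 hx

theorem lemA' {T : Submodule ℝ Der} (h : Cl T) (P : Matrix ρ C ℝ) (u : ρ → ℝ) (hu : u ≠ 0) :
    finrank ℝ (T.map (dm P)) +
      finrank ℝ ((ℝ ∙ u) ⊔ (fix T P).map (dv u) : Submodule ℝ (ρ → ℝ)) * Fintype.card C ≤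
      Fintype.card ρ * Fintype.card C +
      finrank ℝ ((ℝ ∙ u) ⊔ (fix T P).map (dv u) : Submodule ℝ (ρ → ℝ)) *
        finrank ℝ ((T.map (dm P)).map (vm u)) := by
  refine linCMt _ u hu _ (Submodule.mem_sup_left (Submodule.mem_span_singleton_self u)) ?_
  intro X hX hXw x hx
  have h1 : ((ℝ ∙ u) ⊔ (fix T P).map (dv u) : Submodule ℝ (ρ → ℝ)) ≤
      ((T.map (dm P)).map (vm u)).comap X.vecMulLinear := by
    refine sup_le ?_ ?_
    · rw [Submodule.span_singleton_le_iff_mem, Submodule.mem_comap, Matrix.vecMulLinear_apply, hXw]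
      exact Submodule.zero_mem _
    · rintro _ ⟨D, ⟨hD, hDP⟩, rfl⟩
      rw [Submodule.mem_comap, Matrix.vecMulLinear_apply]
      have h2 := dv_vecMul u X D
      rw [hXw, dv_zero] at h2
      have h3 : dv u D ᵥ* X = - (u ᵥ* dm X D) := eq_neg_of_add_eq_zero_left h2.symm
      rw [h3]
      exact Submodule.neg_mem _ ⟨dm X D, stab h hD hDP hX, rfl⟩
  exact h1 hx

/-- The last phase. -/
theorem finF {T : Submodule ℝ Der} (h : Cl T) (P : Matrix ρ C ℝ) (w : C → ℝ) (hw : w ≠ 0)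
    (u : ρ → ℝ) (hu : u ≠ 0) (hz : ∀ X ∈ T.map (dm P), u ⬝ᵥ (X *ᵥ w) = 0)
    {T₀ : Submodule ℝ Der} (hT₀ : T₀ ≤ fix T P) {p q : ℕ}
    (hp : p + 1 ≤ finrank ℝ ((ℝ ∙ u) ⊔ T₀.map (dv u) : Submodule ℝ (ρ → ℝ)))
    (hq : q + 1 ≤ finrank ℝ ((ℝ ∙ w) ⊔ T₀.map (dv w) : Submodule ℝ (C → ℝ))) :
    2 * finrank ℝ (T.map (dm P)) + p * q ≤ 2 * (Fintype.card C * Fintype.card ρ) := by
  refine linFM (T.map (dm P)) w hw u hu ((dv u).domRestrict T₀) ((dv w).domRestrict T₀) ?_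
    (p := p) (q := q) ?_ ?_
  · rintro X hX hXw huX ⟨D₁, hD₁⟩ ⟨D₂, hD₂⟩
    change dv u D₁ ⬝ᵥ (X *ᵥ dv w D₂) + dv u D₂ ⬝ᵥ (X *ᵥ dv w D₁) = 0
    obtain ⟨hD₁T, hD₁P⟩ := hT₀ hD₁
    obtain ⟨hD₂T, hD₂P⟩ := hT₀ hD₂
    have hX₁ := stab h hD₁T hD₁P hX
    have hX₂ := stab h hD₂T hD₂P hX₁
    have h1 := hz _ hX₁
    have h2 := hz _ hX₂
    have h3 := congrArg D₂ h1
    rw [map_zero, de_dot, dv_mulVec, dotProduct_add, h2, zero_add] at h3
    have h4 := dv_mulVec X w D₁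
    rw [hXw, dv_zero] at h4
    have h5 : dm X D₁ *ᵥ w = - (X *ᵥ dv w D₁) := eq_neg_of_add_eq_zero_left h4.symm
    have h6 := dv_vecMul u X D₁
    rw [huX, dv_zero] at h6
    have h7 : u ᵥ* dm X D₁ = - (dv u D₁ ᵥ* X) := (neg_eq_of_add_eq_zero_right h6.symm).symm
    rw [h5, Matrix.dotProduct_mulVec u, h7, dotProduct_neg, neg_dotProduct,
      ← Matrix.dotProduct_mulVec] at h3
    linarith
  · rw [LinearMap.range_domRestrict]
    exact hp
  · rw [LinearMap.range_domRestrict]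
    exact hq

end bounds

section state

variable {ρ σ C : Type} [Fintype ρ] [Fintype σ] [Fintype C] [DecidableEq ρ] [DecidableEq σ]
  [DecidableEq C]

/-- The rows of a singular matrix, divided among the two computers. -/
structure Dat (P : Matrix ρ C ℝ) (Q : Matrix σ C ℝ) (u : ρ → ℝ) (v : σ → ℝ) (w : C → ℝ) :
    Prop where
  Pw : P *ᵥ w = 0
  Qw : Q *ᵥ w = 0
  uv : u ᵥ* P + v ᵥ* Q = 0
  w0 : w ≠ 0
  u0 : u ≠ 0
  v0 : v ≠ 0
  card : Fintype.card C = Fintype.card ρ + Fintype.card σ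

/-- The first state of the conversation. -/
structure St (P : Matrix ρ C ℝ) (Q : Matrix σ C ℝ) (u : ρ → ℝ) (v : σ → ℝ) (w : C → ℝ)
    (T : Submodule ℝ Der) : Prop where
  cl : Cl T
  str : ∀ X ∈ T.map (dm P), ∀ Y ∈ T.map (dm Q), u ⬝ᵥ (X *ᵥ w) + v ⬝ᵥ (Y *ᵥ w) = 0 →
    ∃ D ∈ T, dm P D = X ∧ dm Q D = Y
  nzA : ∃ X ∈ T.map (dm P), u ⬝ᵥ (X *ᵥ w) ≠ 0
  nzB : ∃ Y ∈ T.map (dm Q), v ⬝ᵥ (Y *ᵥ w) ≠ 0

variable {P : Matrix ρ C ℝ} {Q : Matrix σ C ℝ} {u : ρ → ℝ} {v : σ → ℝ} {w : C → ℝ}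
  {T : Submodule ℝ Der}

theorem Dat.swap (h : Dat P Q u v w) : Dat Q P v u w :=
  ⟨h.Qw, h.Pw, by rw [add_comm]; exact h.uv, h.w0, h.v0, h.u0, by rw [h.card, add_comm]⟩

theorem St.swap (h : St P Q u v w T) : St Q P v u w T := by
  refine ⟨h.cl, ?_, h.nzB, h.nzA⟩
  intro Y hY X hX hXY
  obtain ⟨D, hD, h1, h2⟩ := h.str X hX Y hY (by rw [add_comm]; exact hXY)
  exact ⟨D, hD, h2, h1⟩

theorem Dat.der (h : Dat P Q u v w) (D : Der) :
    dv u D ᵥ* P + u ᵥ* dm P D + (dv v D ᵥ* Q + v ᵥ* dm Q D) = 0 := by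
  rw [← dv_vecMul, ← dv_vecMul]
  have h1 : dv (u ᵥ* P) D + dv (v ᵥ* Q) D = dv (u ᵥ* P + v ᵥ* Q) D := by
    ext j
    exact (D.map_add _ _).symm
  rw [h1, h.uv, dv_zero]

theorem Dat.rel (h : Dat P Q u v w) (D : Der) :
    u ⬝ᵥ (dm P D *ᵥ w) + v ⬝ᵥ (dm Q D *ᵥ w) = 0 := by
  have h1 := congrArg (fun z => z ⬝ᵥ w) (h.der D)
  simp only [add_dotProduct, zero_dotProduct, ← Matrix.dotProduct_mulVec, h.Pw, h.Qw,
    dotProduct_zero, zero_add] at h1
  exact h1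

theorem lemB (hd : Dat P Q u v w) (hs : St P Q u v w T) :
    finrank ℝ ((T.map (dm Q)).map (mv w)) ≤
      finrank ℝ ((ℝ ∙ w) ⊔ (fix T P).map (dv w) : Submodule ℝ (C → ℝ)) := by
  set S : Submodule ℝ (C → ℝ) := (ℝ ∙ w) ⊔ (fix T P).map (dv w) with hS
  set J := (T.map (dm Q)).map (mv w) with hJ
  let φ : (σ → ℝ) →ₗ[ℝ] ℝ := dotProductEquiv ℝ σ v
  have h1 := fr_split φ J
  have h2 : finrank ℝ (J.map φ) ≤ 1 := by
    refine (Submodule.finrank_le _).trans ?_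
    rw [finrank_self]
  have h3 : J ⊓ LinearMap.ker φ ≤ S.map Q.mulVecLin := by
    rintro y ⟨⟨Y, hY, rfl⟩, hy⟩
    have hy' : v ⬝ᵥ (Y *ᵥ w) = 0 := hy
    obtain ⟨D, hD, hDP, hDQ⟩ := hs.str 0 (Submodule.zero_mem _) Y hY (by
      rw [Matrix.zero_mulVec, dotProduct_zero, zero_add, hy'])
    refine ⟨- dv w D, S.neg_mem (Submodule.mem_sup_right ⟨D, ⟨hD, hDP⟩, rfl⟩), ?_⟩
    have h4 := dv_mulVec Q w D
    rw [hd.Qw, dv_zero, hDQ] at h4
    rw [Matrix.mulVecLin_apply, Matrix.mulVec_neg, mv_apply]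
    exact (eq_neg_of_add_eq_zero_left h4.symm).symm
  have h4 := fr_split Q.mulVecLin S
  have h5 := Submodule.finrank_mono h3
  have h6 : 1 ≤ finrank ℝ (S ⊓ LinearMap.ker Q.mulVecLin : Submodule ℝ (C → ℝ)) := by
    have h7 : (ℝ ∙ w) ≤ S ⊓ LinearMap.ker Q.mulVecLin := by
      rw [Submodule.span_singleton_le_iff_mem]
      refine ⟨Submodule.mem_sup_left (Submodule.mem_span_singleton_self w), ?_⟩
      exact hd.Qw
    have h8 := Submodule.finrank_mono h7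
    rw [finrank_span_singleton hd.w0] at h8
    exact h8
  omega

theorem lemB' (hd : Dat P Q u v w) (hs : St P Q u v w T) :
    finrank ℝ ((T.map (dm Q)).map (vm v)) ≤
      finrank ℝ ((ℝ ∙ u) ⊔ (fix T P).map (dv u) : Submodule ℝ (ρ → ℝ)) + Fintype.card σ := by
  set S : Submodule ℝ (ρ → ℝ) := (ℝ ∙ u) ⊔ (fix T P).map (dv u) with hS
  set J := (T.map (dm Q)).map (vm v) with hJ
  let φ : (C → ℝ) →ₗ[ℝ] ℝ := dotProductEquiv ℝ C w
  have h1 := fr_split φ J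
  have h2 : finrank ℝ (J.map φ) ≤ 1 := by
    refine (Submodule.finrank_le _).trans ?_
    rw [finrank_self]
  let F : (ρ → ℝ) × (σ → ℝ) →ₗ[ℝ] (C → ℝ) :=
    P.vecMulLinear ∘ₗ LinearMap.fst ℝ _ _ + Q.vecMulLinear ∘ₗ LinearMap.snd ℝ _ _
  have h3 : J ⊓ LinearMap.ker φ ≤ (S.prod ⊤).map F := by
    rintro y ⟨⟨Y, hY, rfl⟩, hy⟩
    have hy' : w ⬝ᵥ (v ᵥ* Y) = 0 := hy
    rw [dotProduct_comm, ← Matrix.dotProduct_mulVec] at hy'
    obtain ⟨D, hD, hDP, hDQ⟩ := hs.str 0 (Submodule.zero_mem _) Y hY (by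
      rw [Matrix.zero_mulVec, dotProduct_zero, zero_add, hy'])
    refine ⟨(- dv u D, - dv v D),
      ⟨S.neg_mem (Submodule.mem_sup_right ⟨D, ⟨hD, hDP⟩, rfl⟩), trivial⟩, ?_⟩
    have h4 := hd.der D
    rw [hDP, hDQ, Matrix.vecMul_zero, add_zero] at h4
    change (- dv u D) ᵥ* P + (- dv v D) ᵥ* Q = v ᵥ* Y
    rw [Matrix.neg_vecMul, Matrix.neg_vecMul]
    rw [← add_assoc] at h4
    rw [eq_neg_of_add_eq_zero_right h4, neg_add]
  have h4 := fr_split F (S.prod ⊤)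
  have h5 := Submodule.finrank_mono h3
  have h6 : 1 ≤ finrank ℝ ((S.prod ⊤) ⊓ LinearMap.ker F : Submodule ℝ ((ρ → ℝ) × (σ → ℝ))) := by
    have h7 : (ℝ ∙ (u, v)) ≤ (S.prod ⊤) ⊓ LinearMap.ker F := by
      rw [Submodule.span_singleton_le_iff_mem]
      refine ⟨⟨Submodule.mem_sup_left (Submodule.mem_span_singleton_self u), trivial⟩, ?_⟩
      exact hd.uv
    have h8 := Submodule.finrank_mono h7
    rw [finrank_span_singleton (by
      intro h
      exact hd.u0 (congrArg Prod.fst h))] at h8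
    exact h8
  have h9 : finrank ℝ (S.prod (⊤ : Submodule ℝ (σ → ℝ))) ≤ finrank ℝ S + Fintype.card σ := by
    have h10 := LinearMap.finrank_range_le (S.subtype.prodMap (LinearMap.id : (σ → ℝ) →ₗ[ℝ] _))
    rw [LinearMap.range_prodMap, Submodule.range_subtype, LinearMap.range_id, finrank_prod,
      finrank_fintype_fun_eq_card] at h10
    exact h10
  omega

end state

end

end Run7.h460.LC
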