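import Pool.Agent.Run7.h460.LC.Gen

set_option autoImplicit false
set_option linter.unusedSectionVars false

/-! # Moving a generic singular system makes it infeasible -/

namespace Run7.h460.LC

open Matrix Filter Topology Pool.Agent.H135R2.VS

variable {R : Type} [Fintype R] [DecidableEq R]

theorem infeas {k : SF} {M : Matrix R R ℝ} {w w' : R → ℝ} (hG : Gen k M w w')
    (hneg : ∀ r, w' r < 0) (last : R) {N : ℝ → Matrix R R ℝ} {N' : Matrix R R ℝ} {t : ℝ}
    (hNt : N t = M) (hN : ∀ i j, HasDerivAt (fun s => N s i j) (N' i j) t)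
    (hne : w' ⬝ᵥ (N' *ᵥ w) ≠ 0) :
    (∀ᶠ s in 𝓝[>] t, ∀ z : R → ℝ, z last = -1 → ¬ ∀ r, 0 ≤ (N s *ᵥ z) r) ∨
      (∀ᶠ s in 𝓝[<] t, ∀ z : R → ℝ, z last = -1 → ¬ ∀ r, 0 ≤ (N s *ᵥ z) r) := by
  -- the modified matrix
  let e : R → ℝ := Pi.single last 1
  let B : ℝ → Matrix R R ℝ := fun s => N s + vecMulVec w' e
  have hez : ∀ z : R → ℝ, e ⬝ᵥ z = z last := fun z => by simp [e]
  have hw' : w' ≠ 0 := fun h => hG.w'0 last (congrFun h last)
  have hww' : w' ⬝ᵥ w' ≠ 0 := by rw [Ne, dotProduct_self_eq_zero]; exact hw'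
  have hBv : ∀ s z, B s *ᵥ z = N s *ᵥ z + (z last) • w' := by
    intro s z
    simp only [B, Matrix.add_mulVec, Matrix.vecMulVec_mulVec, hez]
    congr 1
    ext i
    simp [mul_comm]
  have hvB : ∀ s x, x ᵥ* B s = x ᵥ* N s + (x ⬝ᵥ w') • e := by
    intro s x
    simp only [B, Matrix.vecMul_add, Matrix.vecMul_vecMulVec]
  have hBt : (B t).det ≠ 0 := by
    intro h0
    obtain ⟨z, hz0, hz⟩ := Matrix.exists_mulVec_eq_zero_iff.2 h0
    rw [hBv, hNt] at hz
    have h1 := congrArg (fun x => w' ⬝ᵥ x) hz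
    simp only [dotProduct_add, dotProduct_zero, Matrix.dotProduct_mulVec, hG.left,
      zero_dotProduct, zero_add, dotProduct_smul, smul_eq_mul] at h1
    have h2 : z last = 0 := by
      rcases mul_eq_zero.1 h1 with h | h
      · exact h
      · exact absurd h hww'
    rw [h2, zero_smul, add_zero] at hz
    obtain ⟨c, rfl⟩ := hG.ker z hz
    rw [Pi.smul_apply, smul_eq_mul] at h2
    rcases mul_eq_zero.1 h2 with h | h
    · apply hz0
      rw [h, zero_smul]
    · exact hG.w0 last h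
  have hNc : ContinuousAt N t :=
    continuousAt_pi.2 fun i => continuousAt_pi.2 fun j => (hN i j).continuousAt
  have hBc : ContinuousAt B t := hNc.add continuousAt_const
  let v : ℝ → R → ℝ := fun s => e ᵥ* (B s).adjugate
  have hvc : ContinuousAt v t := by
    have h1 : ContinuousAt (fun s => (B s).adjugate) t :=
      (continuous_id.matrix_adjugate.continuousAt (x := B t)).comp hBc
    have h2 : Continuous (fun A : Matrix R R ℝ => e ᵥ* A) :=
      continuous_const.matrix_vecMul continuous_id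
    exact ContinuousAt.comp (f := fun s => (B s).adjugate) (x := t) h2.continuousAt h1
  have hvN : ∀ s, v s ᵥ* N s = ((B s).det - v s ⬝ᵥ w') • e := by
    intro s
    have h1 : v s ᵥ* B s = (B s).det • e := by
      simp only [v]
      rw [Matrix.vecMul_vecMul, Matrix.adjugate_mul, Matrix.vecMul_smul, Matrix.vecMul_one]
    rw [hvB] at h1
    rw [sub_smul, ← h1, add_sub_cancel_right]
  set δ : ℝ → ℝ := fun s => (B s).det - v s ⬝ᵥ w' with hδ
  set c := (B t).det / (w' ⬝ᵥ w') with hc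
  have hc0 : c ≠ 0 := div_ne_zero hBt hww'
  have hvt : v t = c • w' := by
    have h1 : w' ᵥ* B t = (w' ⬝ᵥ w') • e := by
      rw [hvB, hNt, hG.left, zero_add]
    have h2 : (w' ᵥ* B t) ᵥ* (B t).adjugate = (B t).det • w' := by
      rw [Matrix.vecMul_vecMul, Matrix.mul_adjugate, Matrix.vecMul_smul, Matrix.vecMul_one]
    rw [h1, Matrix.smul_vecMul] at h2
    change (w' ⬝ᵥ w') • v t = (B t).det • w' at h2
    ext i
    have h3 := congrFun h2 i
    simp only [Pi.smul_apply, smul_eq_mul] at h3 ⊢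
    rw [hc]
    field_simp
    linarith
  -- positivity
  have hpos : ∀ᶠ s in 𝓝 t, ∀ r, 0 < -(c * v s r) := by
    rw [eventually_all]
    intro r
    have h1 : ContinuousAt (fun s => -(c * v s r)) t :=
      (((continuous_apply r).continuousAt.comp hvc).const_mul c).neg
    refine h1.eventually (lt_mem_nhds ?_)
    change 0 < -(c * v t r)
    rw [hvt, Pi.smul_apply, smul_eq_mul]
    have := hneg r
    have h2 : 0 < c * c := mul_self_pos.2 hc0
    nlinarith
  -- the difference quotient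
  have hlim : Tendsto (fun s => ∑ i, v s i * ∑ j, slope (fun s => N s i j) t s * w j) (𝓝[≠] t)
      (𝓝 (∑ i, v t i * ∑ j, N' i j * w j)) := by
    refine tendsto_finsetSum _ fun i _ => Tendsto.mul ?_ (tendsto_finsetSum _ fun j _ => ?_)
    · exact ((continuous_apply i).continuousAt.comp hvc).tendsto.mono_left nhdsWithin_le_nhds
    · exact Tendsto.mul_const _ (hasDerivAt_iff_tendsto_slope.1 (hN i j))
  have hlim' : ∑ i, v t i * ∑ j, N' i j * w j = c * (w' ⬝ᵥ (N' *ᵥ w)) := by
    change v t ⬝ᵥ (N' *ᵥ w) = _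
    rw [hvt, smul_dotProduct, smul_eq_mul]
  rw [hlim'] at hlim
  have hquot : ∀ s, (s - t) * ∑ i, v s i * ∑ j, slope (fun s => N s i j) t s * w j =
      δ s * w last := by
    intro s
    have h1 : δ s * w last = v s ⬝ᵥ (N s *ᵥ w) := by
      rw [Matrix.dotProduct_mulVec, hvN, smul_dotProduct, hez, smul_eq_mul]
    have h2 : v s ⬝ᵥ (N s *ᵥ w) = v s ⬝ᵥ ((N s - M) *ᵥ w) := by
      rw [Matrix.sub_mulVec, hG.right, sub_zero]
    rw [h1, h2]
    simp only [dotProduct, Matrix.mulVec, Finset.mul_sum]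
    refine Finset.sum_congr rfl fun i _ => Finset.sum_congr rfl fun j _ => ?_
    rw [slope_def_field, hNt, Matrix.sub_apply]
    rcases eq_or_ne s t with h | h
    · subst h
      rw [hNt]
      ring
    · have h3 : s - t ≠ 0 := sub_ne_zero.2 h
      field_simp
  -- the sign of the difference quotient
  have hcert : ∀ s, (∀ r, 0 < -(c * v s r)) → c * δ s < 0 →
      ∀ z : R → ℝ, z last = -1 → ¬ ∀ r, 0 ≤ (N s *ᵥ z) r := by
    intro s h1 h2 z hz h3
    have h4 : v s ⬝ᵥ (N s *ᵥ z) = - δ s := by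
      rw [Matrix.dotProduct_mulVec, hvN, smul_dotProduct, hez, smul_eq_mul, hz]
      ring
    have h5 : 0 ≤ ∑ r, -(c * v s r) * (N s *ᵥ z) r :=
      Finset.sum_nonneg fun r _ => mul_nonneg (h1 r).le (h3 r)
    have h6 : ∑ r, -(c * v s r) * (N s *ᵥ z) r = -c * (v s ⬝ᵥ (N s *ᵥ z)) := by
      rw [dotProduct, Finset.mul_sum]
      exact Finset.sum_congr rfl fun r _ => by ring
    rw [h6, h4] at h5
    nlinarith
  have hwl : w last ≠ 0 := hG.w0 last
  set η := c * (c * (w' ⬝ᵥ (N' *ᵥ w))) / w last with hη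
  have hη0 : η ≠ 0 := div_ne_zero (mul_ne_zero hc0 (mul_ne_zero hc0 hne)) hwl
  have hlimη : Tendsto (fun s => c * (∑ i, v s i * ∑ j, slope (fun s => N s i j) t s * w j) /
      w last) (𝓝[≠] t) (𝓝 η) := (hlim.const_mul c).div_const _
  have hcδ : ∀ s, c * δ s = (s - t) *
      (c * (∑ i, v s i * ∑ j, slope (fun s => N s i j) t s * w j) / w last) := by
    intro s
    have h1 := hquot s
    have h2 : ∀ x y g l : ℝ, l ≠ 0 → y * g = x * l → c * x = y * (c * g / l) := by
      intro x y g l hl h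
      have h3 : y * (c * g / l) = c * (y * g) / l := by ring
      rw [h3, h, mul_div_assoc, mul_div_cancel_right₀ _ hl]
    exact h2 _ _ _ _ hwl h1
  rcases lt_or_gt_of_ne hη0 with h | h
  · left
    have h1 := (hlimη.eventually_lt_const h).filter_mono (nhdsGT_le_nhdsNE t)
    filter_upwards [h1, nhdsWithin_le_nhds hpos, self_mem_nhdsWithin] with s hs1 hs2 hs3
    refine hcert s hs2 ?_
    rw [hcδ]
    have h4 : t < s := hs3
    exact mul_neg_of_pos_of_neg (by linarith) hs1
  · right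
    have h1 := (hlimη.eventually_const_lt h).filter_mono (nhdsLT_le_nhdsNE t)
    filter_upwards [h1, nhdsWithin_le_nhds hpos, self_mem_nhdsWithin] with s hs1 hs2 hs3
    refine hcert s hs2 ?_
    rw [hcδ]
    have h4 : s < t := hs3
    exact mul_neg_of_neg_of_pos (by linarith) hs1

end Run7.h460.LC
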