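import Pool.Agent.Run7.h460.LC.Sim
import Pool.Agent.Run7.h460.LC.Infeas

set_option autoImplicit false
set_option linter.unusedSectionVars false

/-! # The lower bound for the communication -/

namespace Run7.h460.LC

open Module Matrix Pool.Agent.H135R2.VS Filter Topology

noncomputable section

/-- The inequalities with the rows of `P`, filled up with trivial inequalities. -/
def pad {a n : ℕ} (m : ℕ) (P : Matrix (Fin a) (Option (Fin n)) ℝ) :
    Fin m × Option (Fin n) → ℝ := fun ic =>
  if h : (ic.1 : ℕ) < a then P ⟨(ic.1 : ℕ), h⟩ ic.2 else 0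

/-- The homogeneous coordinates of a point. -/
def hom {n : ℕ} (z : Fin n → ℝ) : Option (Fin n) → ℝ := fun c => c.elim (-1) z

theorem holds_iff {n : ℕ} {I : Type} (a : I × Option (Fin n) → ℝ) (i : I) (z : Fin n → ℝ) :
    Holds a i z ↔ 0 ≤ ∑ c, a (i, c) * hom z c := by
  rw [Fintype.sum_option, Holds]
  simp only [hom, Option.elim_none, Option.elim_some]
  constructor <;> intro h <;> linarith

theorem pad_iff {a n m : ℕ} (hm : a ≤ m) (P : Matrix (Fin a) (Option (Fin n)) ℝ)
    (z : Fin n → ℝ) : (∀ i, Holds (pad m P) i z) ↔ ∀ i, 0 ≤ (P *ᵥ hom z) i := by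
  constructor
  · intro h i
    have h1 := (holds_iff _ _ _).1 (h ⟨i, by omega⟩)
    have e1 : ∀ c, pad m P (⟨i, by omega⟩, c) = P i c := fun c => by simp [pad]
    simp only [e1] at h1
    exact h1
  · intro h i
    rw [holds_iff]
    by_cases hi : (i : ℕ) < a
    · have e1 : ∀ c, pad m P (i, c) = P ⟨(i : ℕ), hi⟩ c := fun c => by simp [pad, hi]
      simp only [e1]
      exact h ⟨i, hi⟩
    · have e1 : ∀ c, pad m P (i, c) = 0 := fun c => by simp [pad, hi]
      simp [e1]

theorem pad_der {a n m : ℕ} (P : Matrix (Fin a) (Option (Fin n)) ℝ) (D : Der)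
    (hD : dm P D = 0) (ic : Fin m × Option (Fin n)) : D (pad m P ic) = 0 := by
  have h : ∀ i c, D (P i c) = 0 := fun i c => congrFun (congrFun hD i) c
  unfold pad
  split_ifs
  · exact h _ _
  · exact map_zero D

/-- The lower bound for rows given by a generic singular matrix. -/
theorem main {n a b m₁ m₂ : ℕ} (ha : 0 < a) (hb : 0 < b) (hab : a + b = n + 1)
    (h₁ : a ≤ m₁) (h₂ : b ≤ m₂)
    (p : Protocol (Fin m₁ × Option (Fin n)) (Fin m₂ × Option (Fin n)))
    (hp : p.Decides Feasible) :
    ∃ x y ans fin, p.Run x y 0 [] ans fin ∧ (a - 2) * (b - 2) ≤ 4 * (fin.length + 1) := by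
  classical
  have : Nonempty (Fin a) := ⟨⟨0, ha⟩⟩
  have : Nonempty (Fin b) := ⟨⟨0, hb⟩⟩
  -- the field of constants
  let k : SF := IntermediateField.adjoin ℚ p.consts
  have hk : p.consts ⊆ k := IntermediateField.subset_adjoin _ _
  have hkc : Countable k := countable_adjoin p.countable_consts
  -- the generic matrix
  have hc1 : Fintype.card (Option (Fin n)) = Fintype.card (Fin a ⊕ Fin b) := by
    rw [Fintype.card_option, Fintype.card_sum, Fintype.card_fin, Fintype.card_fin,
      Fintype.card_fin, hab]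
  have hc2 : Fintype.card (Fin a ⊕ Fin b) = Fintype.card (Fin n ⊕ Unit) := by
    rw [Fintype.card_sum, Fintype.card_sum, Fintype.card_fin, Fintype.card_fin,
      Fintype.card_fin, Fintype.card_unit, hab]
  let e : Option (Fin n) ≃ Fin a ⊕ Fin b := Fintype.equivOfCardEq hc1
  let e' : (Fin a ⊕ Fin b) ≃ Fin n ⊕ Unit := Fintype.equivOfCardEq hc2
  obtain ⟨M, w, w', hG, hneg⟩ := exists_gen k e'
  have hd := dat_of_gen hG e
  set P := rowsA M e with hP
  set Q := rowsB M e with hQ
  -- the problem is feasible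
  have hfeas : Feasible (pad m₁ P) (pad m₂ Q) := by
    have hw0 : w (e none) ≠ 0 := hG.w0 _
    let z : Fin n → ℝ := fun j => - w (e (some j)) / w (e none)
    have hz : hom z = (-(w (e none))⁻¹) • (w ∘ e) := by
      ext c
      rcases c with _ | j
      · simp only [hom, Option.elim_none, Pi.smul_apply, Function.comp_apply, smul_eq_mul]
        field_simp
      · simp only [hom, Option.elim_some, Pi.smul_apply, Function.comp_apply, smul_eq_mul, z]
        field_simp
    refine ⟨z, (pad_iff h₁ P z).2 fun i => ?_, (pad_iff h₂ Q z).2 fun i => ?_⟩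
    · rw [hz, Matrix.mulVec_smul, hd.Pw, smul_zero, Pi.zero_apply]
    · rw [hz, Matrix.mulVec_smul, hd.Qw, smul_zero, Pi.zero_apply]
  obtain ⟨ans, fin, hrun, hans⟩ := hp (pad m₁ P) (pad m₂ Q)
  have hans' : ans = true := hans.2 hfeas
  refine ⟨_, _, ans, fin, hrun, ?_⟩
  have hchain : Chain k P Q fin := hrun.chain hk (fun D hD => pad_der P D hD)
    (fun D hD => pad_der Q D hD) .nil
  rcases chain_inv hG e hchain with ⟨A, B, -, hi⟩ | h
  swap
  · simpa using h
  exfalso
  -- a direction in which the data of the first computer can be moved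
  obtain ⟨_, ⟨D, ⟨hDk, hDfin⟩, rfl⟩, hDne⟩ := hi.st.nzA
  let F : SF := adj k {m | m ∈ fin}
  have hDF : Van F D := van_adj hDk hDfin
  let l : Fin a × Option (Fin n) → ℝ := fun ic => w' (.inl ic.1) * w (e ic.2)
  have hsum : ∀ X : Matrix (Fin a) (Option (Fin n)) ℝ,
      (w' ∘ Sum.inl) ⬝ᵥ (X *ᵥ (w ∘ e)) = ∑ ic, l ic * X ic.1 ic.2 := by
    intro X
    rw [Fintype.sum_prod_type]
    simp only [dotProduct, Matrix.mulVec, Finset.mul_sum, l, Function.comp_apply]
    exact Finset.sum_congr rfl fun i _ => Finset.sum_congr rfl fun c _ => by ring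
  obtain ⟨t, S, G, Pf, d, hfml, hPf, hPft, hPfd, hne⟩ := exists_fml F
    (fun ic : Fin a × Option (Fin n) => P ic.1 ic.2) l D hDF (by
      rw [hsum] at hDne
      exact hDne)
  let Pm : ℝ → Matrix (Fin a) (Option (Fin n)) ℝ := fun s i c => Pf (i, c) s
  have hPmt : Pm t = P := by
    ext i c
    exact hPft (i, c)
  -- the run is the same nearby
  have hX : ∀ ic : Fin m₁ × Option (Fin n), (fun s => pad m₁ (Pm s) ic) ∈ G := by
    intro ic
    unfold pad
    by_cases h : (ic.1 : ℕ) < a
    · simp only [h, dif_pos]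
      exact hPf _
    · simp only [h, dif_neg, not_false_eq_true]
      exact hfml.const 0 (zero_mem F)
  have hsim := Protocol.Run.sim (p := p) (X := fun ic s => pad m₁ (Pm s) ic)
    (y := pad m₂ Q) (s := 0) (ms := []) (b := ans) (fin := fin) hfml
    (hk.trans (fun c hc => le_adj k _ hc)) hX (by
      simp only [hPmt]
      exact hrun) (fun m hm => mem_adj k hm)
  -- the problem is infeasible nearby
  let N : ℝ → Matrix (Fin a ⊕ Fin b) (Fin a ⊕ Fin b) ℝ := fun s r c =>
    Sum.elim (fun i => Pm s i (e.symm c)) (fun i => Q i (e.symm c)) r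
  let N' : Matrix (Fin a ⊕ Fin b) (Fin a ⊕ Fin b) ℝ := fun r c =>
    Sum.elim (fun i => d (i, e.symm c)) (fun _ => 0) r
  have hNt : N t = M := by
    ext r c
    rcases r with i | i
    · simp only [N, Sum.elim_inl, hPmt, hP, rowsA, Equiv.apply_symm_apply]
    · simp only [N, Sum.elim_inr, hQ, rowsB, Equiv.apply_symm_apply]
  have hN : ∀ r c, HasDerivAt (fun s => N s r c) (N' r c) t := by
    intro r c
    rcases r with i | i
    · exact hPfd (i, e.symm c)
    · exact hasDerivAt_const t _
  have hN' : w' ⬝ᵥ (N' *ᵥ w) ≠ 0 := by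
    have h1 : w' ⬝ᵥ (N' *ᵥ w) = ∑ ic, l ic * d ic := by
      have h2 := hsum (fun i c => d (i, c))
      simp only [Prod.mk.eta] at h2
      rw [← h2, dotProduct, Fintype.sum_sum_type]
      have h3 : ∀ i : Fin b, (N' *ᵥ w) (.inr i) = 0 := by
        intro i
        simp [Matrix.mulVec, dotProduct, N']
      simp only [h3, mul_zero, Finset.sum_const_zero, add_zero]
      have h4 : ∀ i : Fin a, (N' *ᵥ w) (.inl i) = ((fun i c => d (i, c)) *ᵥ (w ∘ e)) i := by
        intro i
        rw [Matrix.mulVec, dotProduct, ← sum_equiv e]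
        simp only [Matrix.mulVec, dotProduct, N', Sum.elim_inl, Equiv.symm_apply_apply,
          Function.comp_apply]
      simp only [h4]
      rfl
    rw [h1]
    exact hne
  -- the infeasible problems
  have hNz : ∀ s z, (∀ i, 0 ≤ (Pm s *ᵥ z) i) → (∀ i, 0 ≤ (Q *ᵥ z) i) →
      ∀ r, 0 ≤ (N s *ᵥ (z ∘ e.symm)) r := by
    intro s z h1 h2 r
    rw [Matrix.mulVec, dotProduct, ← sum_equiv e]
    rcases r with i | i
    · have h6 := h1 i
      rw [Matrix.mulVec, dotProduct] at h6
      simpa [N] using h6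
    · have h6 := h2 i
      rw [Matrix.mulVec, dotProduct] at h6
      simpa [N] using h6
  have key : ∀ s, p.Run (fun ic => pad m₁ (Pm s) ic) (pad m₂ Q) 0 [] ans fin →
      ¬ ∀ z : Fin a ⊕ Fin b → ℝ, z (e none) = -1 → ¬ ∀ r, 0 ≤ (N s *ᵥ z) r := by
    intro s hs1 hs2
    obtain ⟨ans₂, fin₂, hrun₂, hans₂⟩ := hp (pad m₁ (Pm s)) (pad m₂ Q)
    have h3 : ans = ans₂ := Protocol.Run.unique hs1 hrun₂
    have h4 : Feasible (pad m₁ (Pm s)) (pad m₂ Q) := hans₂.1 (by rw [← h3]; exact hans')
    obtain ⟨z, hz1, hz2⟩ := h4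
    rw [pad_iff h₁] at hz1
    rw [pad_iff h₂] at hz2
    exact hs2 (hom z ∘ e.symm) (by simp [hom]) (hNz s _ hz1 hz2)
  rcases infeas hG hneg (e none) hNt hN hN' with hinf | hinf
  · have := hfml.right
    have h1 : ∀ᶠ s in 𝓝[S ∩ Set.Ioi t] t, False := by
      filter_upwards [hsim.filter_mono (nhdsWithin_mono t Set.inter_subset_left),
        hinf.filter_mono (nhdsWithin_mono t Set.inter_subset_right)] with s h1 h2
      exact key s h1 h2
    exact h1.exists.choose_spec
  · have := hfml.left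
    have h1 : ∀ᶠ s in 𝓝[S ∩ Set.Iio t] t, False := by
      filter_upwards [hsim.filter_mono (nhdsWithin_mono t Set.inter_subset_left),
        hinf.filter_mono (nhdsWithin_mono t Set.inter_subset_right)] with s h1 h2
      exact key s h1 h2
    exact h1.exists.choose_spec

end

end Run7.h460.LC
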