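import Mathlib

set_option autoImplicit false
set_option linter.unusedSectionVars false

/-! # Linear algebra for the communication bound -/

namespace Run7.h460.LC

open Module Submodule

section split
variable {A B : Type*} [AddCommGroup A] [Module ℝ A] [AddCommGroup B] [Module ℝ B]

theorem fr_split [FiniteDimensional ℝ A] (f : A →ₗ[ℝ] B) (K : Submodule ℝ A) :
    finrank ℝ (K.map f) + finrank ℝ (K ⊓ LinearMap.ker f : Submodule ℝ A) = finrank ℝ K := by
  have h := LinearMap.finrank_range_add_finrank_ker (f.domRestrict K)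
  rw [LinearMap.range_domRestrict] at h
  have h2 : finrank ℝ (LinearMap.ker (f.domRestrict K)) =
      finrank ℝ (K ⊓ LinearMap.ker f : Submodule ℝ A) := by
    rw [LinearMap.ker_domRestrict]
    have h3 := (Submodule.equivSubtypeMap K ((LinearMap.ker f).comap K.subtype)).finrank_eq
    have h4 : ((LinearMap.ker f).comap K.subtype).map K.subtype = K ⊓ LinearMap.ker f := by
      rw [Submodule.map_comap_subtype]
    rw [h4] at h3
    exact h3
  omega

end split

section homs
variable {V W : Type*} [AddCommGroup V] [Module ℝ V] [AddCommGroup W] [Module ℝ W]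
  [FiniteDimensional ℝ V] [FiniteDimensional ℝ W]

/-- Restriction of linear maps to a submodule. -/
def res (T : Submodule ℝ V) : (V →ₗ[ℝ] W) →ₗ[ℝ] (T →ₗ[ℝ] W) := LinearMap.lcomp ℝ W T.subtype

theorem res_apply (T : Submodule ℝ V) (X : V →ₗ[ℝ] W) (t : T) : res T X t = X t := rfl

theorem finrank_range_le (T : Type*) [AddCommGroup T] [Module ℝ T] [FiniteDimensional ℝ T]
    (V₁ : Submodule ℝ W) (K : Submodule ℝ (T →ₗ[ℝ] W)) (h : ∀ X ∈ K, ∀ t, X t ∈ V₁) :
    finrank ℝ K ≤ finrank ℝ T * finrank ℝ V₁ := by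
  have h1 : K ≤ LinearMap.range (LinearMap.compRight ℝ V₁.subtype :
      (T →ₗ[ℝ] V₁) →ₗ[ℝ] (T →ₗ[ℝ] W)) := by
    intro X hX
    refine ⟨X.codRestrict V₁ (h X hX), ?_⟩
    ext t
    rfl
  refine (Submodule.finrank_mono h1).trans ?_
  refine (LinearMap.finrank_range_le _).trans ?_
  rw [Module.finrank_linearMap]

/-- The basic inequality. -/
theorem linC (K : Submodule ℝ (V →ₗ[ℝ] W)) (w : V) (hw : w ≠ 0) (S : Submodule ℝ V) (hwS : w ∈ S)
    (h : ∀ X ∈ K, X w = 0 → ∀ u ∈ S, X u ∈ K.map (LinearMap.applyₗ w)) :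
    finrank ℝ K + finrank ℝ S * finrank ℝ W ≤
      finrank ℝ V * finrank ℝ W + finrank ℝ S * finrank ℝ (K.map (LinearMap.applyₗ w)) := by
  classical
  obtain ⟨T, hT⟩ := Submodule.exists_isCompl S
  obtain ⟨S'', hS''⟩ := Submodule.exists_isCompl ((ℝ ∙ w).comap S.subtype)
  set S' := S''.map S.subtype with hS'
  have hle : (ℝ ∙ w) ≤ S := by
    rw [Submodule.span_singleton_le_iff_mem]; exact hwS
  have hmapw : ((ℝ ∙ w).comap S.subtype).map S.subtype = (ℝ ∙ w) := by
    rw [Submodule.map_comap_subtype, inf_eq_right]; exact hle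
  have hsup : (ℝ ∙ w) ⊔ S' = S := by
    have := congrArg (Submodule.map S.subtype) hS''.sup_eq_top
    rw [Submodule.map_sup, hmapw, Submodule.map_top, Submodule.range_subtype] at this
    exact this
  have hfw : finrank ℝ (ℝ ∙ w) = 1 := finrank_span_singleton hw
  have hS'r : finrank ℝ S' + 1 = finrank ℝ S := by
    have h1 := Submodule.finrank_add_eq_of_isCompl hS''
    have h2 : finrank ℝ ((ℝ ∙ w).comap S.subtype) = finrank ℝ (ℝ ∙ w) := by
      have h := (Submodule.equivSubtypeMap S ((ℝ ∙ w).comap S.subtype)).finrank_eq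
      rw [hmapw] at h
      exact h
    have h3 : finrank ℝ S' = finrank ℝ S'' := (Submodule.equivSubtypeMap S S'').finrank_eq.symm
    omega
  have hTr : finrank ℝ S + finrank ℝ T = finrank ℝ V := Submodule.finrank_add_eq_of_isCompl hT
  set Kw := K.map (LinearMap.applyₗ w : (V →ₗ[ℝ] W) →ₗ[ℝ] W) with hKw
  set K0 := K ⊓ LinearMap.ker (LinearMap.applyₗ w : (V →ₗ[ℝ] W) →ₗ[ℝ] W) with hK0
  have e1 : finrank ℝ Kw + finrank ℝ K0 = finrank ℝ K := fr_split _ K
  set K1 := K0 ⊓ LinearMap.ker (res T : (V →ₗ[ℝ] W) →ₗ[ℝ] _) with hK1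
  have e2 : finrank ℝ (K0.map (res T)) + finrank ℝ K1 = finrank ℝ K0 := fr_split _ K0
  have e3 : finrank ℝ (K1.map (res S')) +
      finrank ℝ (K1 ⊓ LinearMap.ker (res S') : Submodule ℝ (V →ₗ[ℝ] W)) = finrank ℝ K1 :=
    fr_split _ K1
  have b1 : finrank ℝ (K0.map (res T)) ≤ finrank ℝ T * finrank ℝ W := by
    refine (Submodule.finrank_le _).trans ?_
    rw [Module.finrank_linearMap]
  have b2 : finrank ℝ (K1.map (res S')) ≤ finrank ℝ S' * finrank ℝ Kw := by
    refine finrank_range_le S' Kw _ ?_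
    rintro _ ⟨X, hX, rfl⟩ t
    rw [res_apply]
    have hX0 : X ∈ K0 := hX.1
    refine h X hX0.1 hX0.2 t ?_
    rw [← hsup]
    exact Submodule.mem_sup_right t.2
  have b3 : (K1 ⊓ LinearMap.ker (res S') : Submodule ℝ (V →ₗ[ℝ] W)) = ⊥ := by
    rw [eq_bot_iff]
    rintro X ⟨⟨hX0, hXT⟩, hXS⟩
    have hXw : X w = 0 := hX0.2
    rw [Submodule.mem_bot]
    have hk : (⊤ : Submodule ℝ V) ≤ LinearMap.ker X := by
      rw [← hT.sup_eq_top, ← hsup]
      refine sup_le (sup_le ?_ ?_) ?_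
      · rw [Submodule.span_singleton_le_iff_mem]; exact hXw
      · intro u hu
        have := LinearMap.congr_fun (show res S' X = 0 from hXS) ⟨u, hu⟩
        exact this
      · intro u hu
        have := LinearMap.congr_fun (show res T X = 0 from hXT) ⟨u, hu⟩
        exact this
    exact LinearMap.ker_eq_top.1 (top_le_iff.1 hk)
  rw [b3, finrank_bot] at e3
  have e4 : finrank ℝ S * finrank ℝ W + finrank ℝ T * finrank ℝ W =
      finrank ℝ V * finrank ℝ W := by rw [← add_mul, hTr]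
  have e5 : finrank ℝ S * finrank ℝ Kw = finrank ℝ S' * finrank ℝ Kw + finrank ℝ Kw := by
    rw [← hS'r]; ring
  omega

end homs

section skew

/-- Skew matrices: twice the dimension is at most the square of the size. -/
theorem skew_matrix {q : ℕ} (H : Submodule ℝ (Matrix (Fin q) (Fin q) ℝ))
    (h : ∀ γ ∈ H, ∀ i j, γ i j = - γ j i) : 2 * finrank ℝ H ≤ q * q := by
  let f : (H × H) →ₗ[ℝ] Matrix (Fin q) (Fin q) ℝ :=
    { toFun := fun γ => Matrix.of fun i j => γ.1.1 i j + (if i < j then 1 else -1) * γ.2.1 i j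
      map_add' := by
        intro γ γ'
        ext i j
        simp only [Prod.fst_add, Submodule.coe_add, Matrix.add_apply, Prod.snd_add, Matrix.of_apply]
        ring
      map_smul' := by
        intro c γ
        ext i j
        simp only [Prod.smul_fst, SetLike.val_smul, Matrix.smul_apply, smul_eq_mul, Prod.smul_snd,
          Matrix.of_apply, RingHom.id_apply]
        ring }
  have hf : Function.Injective f := by
    rw [injective_iff_map_eq_zero]
    rintro ⟨⟨γ, hγ⟩, ⟨γ', hγ'⟩⟩ h0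
    have key : ∀ i j, γ i j = 0 ∧ γ' i j = 0 := by
      intro i j
      rcases lt_trichotomy i j with hij | hij | hij
      · have h1 := congrFun (congrFun h0 i) j
        have h2 := congrFun (congrFun h0 j) i
        simp only [f, LinearMap.coe_mk, AddHom.coe_mk, Matrix.of_apply, hij, if_true,
          Matrix.zero_apply, not_lt.2 hij.le, if_false] at h1 h2
        have h3 := h γ hγ i j
        have h4 := h γ' hγ' i j
        constructor <;> linarith
      · subst hij
        have h3 := h γ hγ i i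
        have h4 := h γ' hγ' i i
        constructor <;> linarith
      · have h1 := congrFun (congrFun h0 i) j
        have h2 := congrFun (congrFun h0 j) i
        simp only [f, LinearMap.coe_mk, AddHom.coe_mk, Matrix.of_apply, hij, if_true,
          Matrix.zero_apply, not_lt.2 hij.le, if_false] at h1 h2
        have h3 := h γ hγ i j
        have h4 := h γ' hγ' i j
        constructor <;> linarith
    ext i j
    · exact (key i j).1
    · exact (key i j).2
  have h1 := LinearMap.finrank_le_finrank_of_injective hf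
  rw [Module.finrank_prod, Module.finrank_matrix, Module.finrank_self] at h1
  simp only [Fintype.card_fin, mul_one] at h1
  omega

theorem skew_forms {F : Type*} [AddCommGroup F] [Module ℝ F] [FiniteDimensional ℝ F]
    (H : Submodule ℝ (F →ₗ[ℝ] F →ₗ[ℝ] ℝ)) (h : ∀ γ ∈ H, ∀ x y, γ x y = - γ y x) :
    2 * finrank ℝ H ≤ finrank ℝ F * finrank ℝ F := by
  classical
  let b := Module.finBasis ℝ F
  let e := LinearMap.BilinForm.toMatrix b
  have h1 := skew_matrix (H.map e.toLinearMap) (by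
    rintro _ ⟨γ, hγ, rfl⟩ i j
    change LinearMap.BilinForm.toMatrix b γ i j = - LinearMap.BilinForm.toMatrix b γ j i
    rw [LinearMap.BilinForm.toMatrix_apply, LinearMap.BilinForm.toMatrix_apply]
    exact h γ hγ _ _)
  rw [LinearEquiv.finrank_map_eq] at h1
  exact h1

variable {Q E F : Type*} [AddCommGroup Q] [Module ℝ Q] [AddCommGroup E] [Module ℝ E]
  [AddCommGroup F] [Module ℝ F] [FiniteDimensional ℝ E] [FiniteDimensional ℝ F]

theorem skew_bil (e : Q →ₗ[ℝ] E) (f : Q →ₗ[ℝ] F) (he : Function.Surjective e)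
    (hf : Function.Surjective f) (G : Submodule ℝ (F →ₗ[ℝ] E →ₗ[ℝ] ℝ))
    (hG : ∀ β ∈ G, ∀ x y, β (f x) (e y) + β (f y) (e x) = 0) :
    2 * finrank ℝ G ≤ finrank ℝ E * finrank ℝ F := by
  rcases le_total (finrank ℝ F) (finrank ℝ E) with hqp | hqp
  · obtain ⟨σ, hσ⟩ := LinearMap.exists_rightInverse_of_surjective f (LinearMap.range_eq_top.2 hf)
    have hσ' : ∀ y, f (σ y) = y := fun y => LinearMap.congr_fun hσ y
    let Γ : (F →ₗ[ℝ] E →ₗ[ℝ] ℝ) →ₗ[ℝ] (F →ₗ[ℝ] F →ₗ[ℝ] ℝ) :=
      LinearMap.compRight ℝ (LinearMap.lcomp ℝ ℝ (e ∘ₗ σ))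
    have hΓ : ∀ β x y, Γ β x y = β x (e (σ y)) := fun β x y => rfl
    have h1 := skew_forms (G.map Γ) (by
      rintro _ ⟨β, hβ, rfl⟩ x y
      rw [hΓ, hΓ]
      have := hG β hβ (σ x) (σ y)
      rw [hσ', hσ'] at this
      linarith)
    have h2 : G ⊓ LinearMap.ker Γ = ⊥ := by
      rw [eq_bot_iff]
      rintro β ⟨hβ, hk⟩
      rw [Submodule.mem_bot]
      ext x y
      obtain ⟨D, rfl⟩ := he y
      have h3 := hG β hβ (σ x) D
      rw [hσ'] at h3
      have h4 : β (f D) (e (σ x)) = 0 := by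
        have := LinearMap.congr_fun (LinearMap.congr_fun (show Γ β = 0 from hk) (f D)) x
        rw [hΓ] at this
        exact this
      simp only [LinearMap.zero_apply]
      linarith
    have h3 := fr_split (A := F →ₗ[ℝ] E →ₗ[ℝ] ℝ) (B := F →ₗ[ℝ] F →ₗ[ℝ] ℝ) Γ G
    rw [h2, finrank_bot] at h3
    calc 2 * finrank ℝ G = 2 * finrank ℝ (G.map Γ) := by omega
      _ ≤ finrank ℝ F * finrank ℝ F := h1
      _ ≤ finrank ℝ E * finrank ℝ F := Nat.mul_le_mul_right _ hqp
  · obtain ⟨σ, hσ⟩ := LinearMap.exists_rightInverse_of_surjective e (LinearMap.range_eq_top.2 he)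
    have hσ' : ∀ y, e (σ y) = y := fun y => LinearMap.congr_fun hσ y
    let Γ : (F →ₗ[ℝ] E →ₗ[ℝ] ℝ) →ₗ[ℝ] (E →ₗ[ℝ] E →ₗ[ℝ] ℝ) :=
      LinearMap.lcomp ℝ (E →ₗ[ℝ] ℝ) (f ∘ₗ σ)
    have hΓ : ∀ β x y, Γ β x y = β (f (σ x)) y := fun β x y => rfl
    have h1 := skew_forms (G.map Γ) (by
      rintro _ ⟨β, hβ, rfl⟩ x y
      rw [hΓ, hΓ]
      have := hG β hβ (σ x) (σ y)
      rw [hσ', hσ'] at this
      linarith)
    have h2 : G ⊓ LinearMap.ker Γ = ⊥ := by
      rw [eq_bot_iff]
      rintro β ⟨hβ, hk⟩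
      rw [Submodule.mem_bot]
      ext x y
      obtain ⟨D, rfl⟩ := hf x
      have h3 := hG β hβ D (σ y)
      rw [hσ'] at h3
      have h4 : β (f (σ y)) (e D) = 0 := by
        have := LinearMap.congr_fun (LinearMap.congr_fun (show Γ β = 0 from hk) y) (e D)
        rw [hΓ] at this
        exact this
      simp only [LinearMap.zero_apply]
      linarith
    have h3 := fr_split (A := F →ₗ[ℝ] E →ₗ[ℝ] ℝ) (B := E →ₗ[ℝ] E →ₗ[ℝ] ℝ) Γ G
    rw [h2, finrank_bot] at h3
    calc 2 * finrank ℝ G = 2 * finrank ℝ (G.map Γ) := by omega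
      _ ≤ finrank ℝ E * finrank ℝ E := h1
      _ ≤ finrank ℝ E * finrank ℝ F := Nat.mul_le_mul_left _ hqp

/-- The final inequality for maps of the quotient into the subspace. -/
theorem linF0 {V W W' : Type*} [AddCommGroup V] [Module ℝ V] [AddCommGroup W] [Module ℝ W]
    [AddCommGroup W'] [Module ℝ W'] [FiniteDimensional ℝ W']
    [FiniteDimensional ℝ V] [FiniteDimensional ℝ W] (j : W' ≃ₗ[ℝ] Module.Dual ℝ W)
    (K : Submodule ℝ (V →ₗ[ℝ] W))
    (e : Q →ₗ[ℝ] W') (f : Q →ₗ[ℝ] V)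
    (hK : ∀ X ∈ K, ∀ x y, j (e x) (X (f y)) + j (e y) (X (f x)) = 0) :
    2 * finrank ℝ K + finrank ℝ (LinearMap.range e) * finrank ℝ (LinearMap.range f) ≤
      2 * (finrank ℝ V * finrank ℝ W) := by
  classical
  let Θ : (V →ₗ[ℝ] W) →ₗ[ℝ] (LinearMap.range f →ₗ[ℝ] LinearMap.range e →ₗ[ℝ] ℝ) :=
    { toFun := fun X => LinearMap.mk₂ ℝ
        (fun (x : LinearMap.range f) (y : LinearMap.range e) => j (y : W') (X x))
        (by intro x x' y; simp) (by intro c x y; simp) (by intro x y y'; simp)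
        (by intro c x y; simp)
      map_add' := by intro X X'; ext x y; simp
      map_smul' := by intro c X; ext x y; simp }
  have hΘ : ∀ X (x : LinearMap.range f) (y : LinearMap.range e),
    Θ X x y = j (y : W') (X x) := fun X x y => rfl
  have hsurj : Function.Surjective Θ := by
    intro T
    obtain ⟨π, hπ⟩ := LinearMap.exists_leftInverse_of_injective (LinearMap.range f).subtype
      (LinearMap.range f).ker_subtype
    obtain ⟨ρ, hρ⟩ := LinearMap.exists_leftInverse_of_injective (LinearMap.range e).subtype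
      (LinearMap.range e).ker_subtype
    -- lift functionals on `range e` to vectors of `W`
    let L : (LinearMap.range e →ₗ[ℝ] ℝ) →ₗ[ℝ] W :=
      (Module.evalEquiv ℝ W).symm.toLinearMap ∘ₗ
        (LinearMap.lcomp ℝ ℝ (ρ ∘ₗ j.symm.toLinearMap))
    have hL : ∀ t (y : LinearMap.range e), j (y : W') (L t) = t y := by
      intro t y
      have h1 : Module.evalEquiv ℝ W (L t) =
          LinearMap.lcomp ℝ ℝ (ρ ∘ₗ j.symm.toLinearMap) t := by
        simp [L]
      have h2 := LinearMap.congr_fun h1 (j (y : W'))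
      rw [Module.evalEquiv_apply] at h2
      change j (y : W') (L t) = t (ρ (j.symm (j y))) at h2
      rw [h2, j.symm_apply_apply]
      have h3 : ρ ((LinearMap.range e).subtype y) = y := LinearMap.congr_fun hρ y
      rw [Submodule.subtype_apply] at h3
      rw [h3]
    refine ⟨L ∘ₗ T ∘ₗ π, ?_⟩
    ext x y
    rw [hΘ]
    have h3 : π ((LinearMap.range f).subtype x) = x := LinearMap.congr_fun hπ x
    rw [Submodule.subtype_apply] at h3
    simp only [LinearMap.comp_apply]
    rw [hL, h3]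
  have d1 : finrank ℝ (LinearMap.ker Θ) +
      finrank ℝ (LinearMap.range f) * finrank ℝ (LinearMap.range e) =
      finrank ℝ V * finrank ℝ W := by
    have h1 := LinearMap.finrank_range_add_finrank_ker (V := V →ₗ[ℝ] W)
      (V₂ := LinearMap.range f →ₗ[ℝ] LinearMap.range e →ₗ[ℝ] ℝ) Θ
    rw [LinearMap.range_eq_top.2 hsurj, finrank_top, Module.finrank_linearMap,
      Module.finrank_linearMap, Module.finrank_linearMap, Module.finrank_self, mul_one] at h1
    omega
  have d2 := fr_split (A := V →ₗ[ℝ] W)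
    (B := LinearMap.range f →ₗ[ℝ] LinearMap.range e →ₗ[ℝ] ℝ) Θ K
  have d3 : finrank ℝ (K ⊓ LinearMap.ker Θ : Submodule ℝ (V →ₗ[ℝ] W)) ≤
      finrank ℝ (LinearMap.ker Θ) := Submodule.finrank_mono inf_le_right
  have d4 : 2 * finrank ℝ (K.map Θ) ≤
      finrank ℝ (LinearMap.range e) * finrank ℝ (LinearMap.range f) := by
    refine skew_bil e.rangeRestrict f.rangeRestrict e.surjective_rangeRestrict
      f.surjective_rangeRestrict (K.map Θ) ?_
    rintro _ ⟨X, hX, rfl⟩ x y
    have := hK X hX x y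
    change j (e y) (X (f x)) + j (e x) (X (f y)) = 0
    linarith
  have e4 : finrank ℝ (LinearMap.range f) * finrank ℝ (LinearMap.range e) =
    finrank ℝ (LinearMap.range e) * finrank ℝ (LinearMap.range f) := mul_comm _ _
  omega

/-- The final inequality. -/
theorem linF {V W : Type*} [AddCommGroup V] [Module ℝ V] [AddCommGroup W] [Module ℝ W]
    [FiniteDimensional ℝ V] [FiniteDimensional ℝ W] (K : Submodule ℝ (V →ₗ[ℝ] W))
    (w : V) (hw : w ≠ 0) (w' : Module.Dual ℝ W) (hw' : w' ≠ 0)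
    (e : Q →ₗ[ℝ] Module.Dual ℝ W) (f : Q →ₗ[ℝ] V)
    (hK : ∀ X ∈ K, X w = 0 → (∀ v, w' (X v) = 0) → ∀ x y, e x (X (f y)) + e y (X (f x)) = 0)
    {p q : ℕ} (hp : p + 1 ≤ finrank ℝ ((ℝ ∙ w') ⊔ LinearMap.range e : Submodule ℝ (Module.Dual ℝ W)))
    (hq : q + 1 ≤ finrank ℝ ((ℝ ∙ w) ⊔ LinearMap.range f : Submodule ℝ V)) :
    2 * finrank ℝ K + p * q ≤ 2 * (finrank ℝ V * finrank ℝ W) := by
  classical
  set W₀ := LinearMap.ker w' with hW₀
  set A := W₀.dualAnnihilator with hA
  -- dimensions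
  have hdW : finrank ℝ W₀ + 1 = finrank ℝ W := by
    have h1 : finrank ℝ (LinearMap.range w') + finrank ℝ W₀ = finrank ℝ W :=
      LinearMap.finrank_range_add_finrank_ker w'
    have h2 : LinearMap.range w' = ⊤ := LinearMap.range_eq_top.2 (LinearMap.surjective hw')
    have h3 : finrank ℝ (LinearMap.range w') = 1 := by
      rw [h2, finrank_top, Module.finrank_self]
    omega
  have hdA : finrank ℝ A = 1 := by
    have h1 : finrank ℝ W₀ + finrank ℝ A = finrank ℝ W :=
      Subspace.finrank_add_finrank_dualAnnihilator_eq W₀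
    omega
  have hfw : finrank ℝ (ℝ ∙ w) = 1 := finrank_span_singleton hw
  have hdV : finrank ℝ (V ⧸ (ℝ ∙ w)) + 1 = finrank ℝ V := by
    have h1 := Submodule.finrank_quotient_add_finrank (ℝ ∙ w)
    omega
  -- the embedding
  let ι : ((V ⧸ (ℝ ∙ w)) →ₗ[ℝ] W₀) →ₗ[ℝ] (V →ₗ[ℝ] W) :=
    (LinearMap.compRight ℝ W₀.subtype) ∘ₗ (LinearMap.lcomp ℝ W₀ (ℝ ∙ w).mkQ)
  have hι : ∀ Y v, ι Y v = (Y ((ℝ ∙ w).mkQ v) : W) := fun Y v => rfl
  have hιinj : Function.Injective ι := by
    rw [injective_iff_map_eq_zero]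
    intro Y hY
    ext v
    have h1 := LinearMap.congr_fun hY v
    rw [hι] at h1
    exact h1
  have hιker : LinearMap.ker ι = ⊥ := LinearMap.ker_eq_bot.2 hιinj
  have d1 : finrank ℝ (K.comap ι) = finrank ℝ (K ⊓ LinearMap.range ι : Submodule ℝ (V →ₗ[ℝ] W)) := by
    have h1 := fr_split (A := (V ⧸ (ℝ ∙ w)) →ₗ[ℝ] W₀) (B := V →ₗ[ℝ] W) ι (K.comap ι)
    rw [hιker, inf_bot_eq, finrank_bot, Submodule.map_comap_eq, inf_comm] at h1
    omega
  have d2 : finrank ℝ (LinearMap.range ι) = finrank ℝ (V ⧸ (ℝ ∙ w)) * finrank ℝ W₀ := by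
    rw [LinearMap.finrank_range_of_inj hιinj, Module.finrank_linearMap]
  have d3 : finrank ℝ (K ⊔ LinearMap.range ι : Submodule ℝ (V →ₗ[ℝ] W)) +
      finrank ℝ (K ⊓ LinearMap.range ι : Submodule ℝ (V →ₗ[ℝ] W)) =
      finrank ℝ K + finrank ℝ (LinearMap.range ι) :=
    Submodule.finrank_sup_add_finrank_inf_eq K (LinearMap.range ι)
  have d4 : finrank ℝ (K ⊔ LinearMap.range ι : Submodule ℝ (V →ₗ[ℝ] W)) ≤
      finrank ℝ V * finrank ℝ W := by
    refine (Submodule.finrank_le _).trans ?_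
    rw [Module.finrank_linearMap]
  -- the images of `e`, `f`
  have p1 : p ≤ finrank ℝ (LinearMap.range (A.mkQ ∘ₗ e)) := by
    have h1 : finrank ℝ (((ℝ ∙ w') ⊔ LinearMap.range e).map A.mkQ) +
        finrank ℝ (((ℝ ∙ w') ⊔ LinearMap.range e) ⊓ LinearMap.ker A.mkQ :
        Submodule ℝ (Module.Dual ℝ W)) =
        finrank ℝ ((ℝ ∙ w') ⊔ LinearMap.range e : Submodule ℝ (Module.Dual ℝ W)) :=
      fr_split (A := Module.Dual ℝ W) (B := Module.Dual ℝ W ⧸ A) A.mkQ
      ((ℝ ∙ w') ⊔ LinearMap.range e)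
    have h2 : finrank ℝ (((ℝ ∙ w') ⊔ LinearMap.range e) ⊓ LinearMap.ker A.mkQ :
        Submodule ℝ (Module.Dual ℝ W)) ≤ 1 := by
      refine (Submodule.finrank_mono inf_le_right).trans ?_
      rw [Submodule.ker_mkQ, hdA]
    have h3 : ((ℝ ∙ w') ⊔ LinearMap.range e).map A.mkQ = LinearMap.range (A.mkQ ∘ₗ e) := by
      rw [Submodule.map_sup, LinearMap.range_comp]
      refine sup_eq_right.2 ?_
      rw [Submodule.map_span_le]
      intro x hx
      rw [Set.mem_singleton_iff] at hx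
      subst hx
      have : A.mkQ x = 0 := by
        rw [Submodule.mkQ_apply, Submodule.Quotient.mk_eq_zero, hA,
          Submodule.mem_dualAnnihilator]
        intro y hy
        exact hy
      rw [this]
      exact Submodule.zero_mem _
    rw [h3] at h1
    omega
  have q1 : q ≤ finrank ℝ (LinearMap.range ((ℝ ∙ w).mkQ ∘ₗ f)) := by
    have h1 := fr_split (A := V) (B := V ⧸ (ℝ ∙ w)) (ℝ ∙ w).mkQ
      ((ℝ ∙ w) ⊔ LinearMap.range f)
    have h2 : finrank ℝ (((ℝ ∙ w) ⊔ LinearMap.range f) ⊓ LinearMap.ker (ℝ ∙ w).mkQ :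
        Submodule ℝ V) ≤ 1 := by
      refine (Submodule.finrank_mono inf_le_right).trans ?_
      rw [Submodule.ker_mkQ, hfw]
    have h3 : ((ℝ ∙ w) ⊔ LinearMap.range f).map (ℝ ∙ w).mkQ =
        LinearMap.range ((ℝ ∙ w).mkQ ∘ₗ f) := by
      rw [Submodule.map_sup, LinearMap.range_comp]
      refine sup_eq_right.2 ?_
      rw [Submodule.map_span_le]
      intro x hx
      rw [Set.mem_singleton_iff] at hx
      subst hx
      have : (ℝ ∙ x).mkQ x = 0 := by
        rw [Submodule.mkQ_apply, Submodule.Quotient.mk_eq_zero]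
        exact Submodule.mem_span_singleton_self x
      rw [this]
      exact Submodule.zero_mem _
    rw [h3] at h1
    omega
  have d5 := linF0 (Subspace.quotAnnihilatorEquiv W₀) (K.comap ι) (A.mkQ ∘ₗ e)
    ((ℝ ∙ w).mkQ ∘ₗ f) (by
      intro Y hY x y
      have h1 := hK (ι Y) hY (by
        rw [hι]
        have : (ℝ ∙ w).mkQ w = 0 := by
          rw [Submodule.mkQ_apply, Submodule.Quotient.mk_eq_zero]
          exact Submodule.mem_span_singleton_self w
        rw [this, map_zero]; rfl) (fun v => (Y ((ℝ ∙ w).mkQ v)).2) x y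
      exact h1)
  have d7 : 2 * finrank ℝ (K.comap ι) + finrank ℝ (LinearMap.range (A.mkQ ∘ₗ e)) *
      finrank ℝ (LinearMap.range ((ℝ ∙ w).mkQ ∘ₗ f)) ≤
      2 * (finrank ℝ (V ⧸ (ℝ ∙ w)) * finrank ℝ W₀) := d5
  have d6 : p * q ≤ finrank ℝ (LinearMap.range (A.mkQ ∘ₗ e)) *
    finrank ℝ (LinearMap.range ((ℝ ∙ w).mkQ ∘ₗ f)) := Nat.mul_le_mul p1 q1
  omega

end skew

end Run7.h460.LC
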