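import Pool.Agent.Run7.h460.LC.Lin

set_option autoImplicit false
set_option linter.unusedSectionVars false

/-! # The dimension bounds in terms of matrices -/

namespace Run7.h460.LC

open Module Matrix

variable {ρ C : Type} [Fintype ρ] [Fintype C] [DecidableEq ρ] [DecidableEq C]

/-- `X ↦ X w`. -/
def mv (w : C → ℝ) : Matrix ρ C ℝ →ₗ[ℝ] (ρ → ℝ) where
  toFun X := X *ᵥ w
  map_add' X Y := Matrix.add_mulVec X Y w
  map_smul' c X := Matrix.smul_mulVec c X w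

/-- `X ↦ u X`. -/
def vm (u : ρ → ℝ) : Matrix ρ C ℝ →ₗ[ℝ] (C → ℝ) where
  toFun X := u ᵥ* X
  map_add' X Y := Matrix.vecMul_add X Y u
  map_smul' c X := Matrix.vecMul_smul u c X

omit [DecidableEq ρ] [DecidableEq C] in
@[simp] theorem mv_apply (w : C → ℝ) (X : Matrix ρ C ℝ) : mv w X = X *ᵥ w := rfl

omit [DecidableEq ρ] [DecidableEq C] in
@[simp] theorem vm_apply (u : ρ → ℝ) (X : Matrix ρ C ℝ) : vm u X = u ᵥ* X := rfl

theorem linCM (K : Submodule ℝ (Matrix ρ C ℝ)) (w : C → ℝ) (hw : w ≠ 0)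
    (S : Submodule ℝ (C → ℝ)) (hwS : w ∈ S)
    (h : ∀ X ∈ K, X *ᵥ w = 0 → ∀ u ∈ S, X *ᵥ u ∈ K.map (mv w)) :
    finrank ℝ K + finrank ℝ S * Fintype.card ρ ≤
      Fintype.card C * Fintype.card ρ + finrank ℝ S * finrank ℝ (K.map (mv w)) := by
  have h1 : (K.map (Matrix.toLin' (R := ℝ) (m := ρ) (n := C)).toLinearMap).map
      (LinearMap.applyₗ w) = K.map (mv w) := by
    rw [← Submodule.map_comp]
    congr 1
  have h2 := linC (K.map (Matrix.toLin' (R := ℝ) (m := ρ) (n := C)).toLinearMap) w hw S hwS (by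
    rintro _ ⟨X, hX, rfl⟩ hXw u hu
    rw [h1]
    exact h X hX hXw u hu)
  rw [h1, LinearEquiv.finrank_map_eq, finrank_fintype_fun_eq_card,
    finrank_fintype_fun_eq_card] at h2
  exact h2

theorem linCMt (K : Submodule ℝ (Matrix ρ C ℝ)) (u : ρ → ℝ) (hu : u ≠ 0)
    (S : Submodule ℝ (ρ → ℝ)) (huS : u ∈ S)
    (h : ∀ X ∈ K, u ᵥ* X = 0 → ∀ x ∈ S, x ᵥ* X ∈ K.map (vm u)) :
    finrank ℝ K + finrank ℝ S * Fintype.card C ≤
      Fintype.card ρ * Fintype.card C + finrank ℝ S * finrank ℝ (K.map (vm u)) := by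
  have h1 : (K.map (Matrix.transposeLinearEquiv ρ C ℝ ℝ).toLinearMap).map (mv u) =
      K.map (vm u) := by
    rw [← Submodule.map_comp]
    congr 1
    ext1 X
    simp [Matrix.mulVec_transpose]
  have h2 := linCM (K.map (Matrix.transposeLinearEquiv ρ C ℝ ℝ).toLinearMap) u hu S huS (by
    rintro _ ⟨X, hX, rfl⟩ hXu x hx
    rw [h1]
    change Xᵀ *ᵥ u = 0 at hXu
    change Xᵀ *ᵥ x ∈ _
    rw [Matrix.mulVec_transpose] at hXu ⊢
    exact h X hX hXu x hx)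
  rw [h1, LinearEquiv.finrank_map_eq] at h2
  exact h2

theorem linFM {Q : Type*} [AddCommGroup Q] [Module ℝ Q] (K : Submodule ℝ (Matrix ρ C ℝ))
    (w : C → ℝ) (hw : w ≠ 0) (u : ρ → ℝ) (hu : u ≠ 0)
    (e : Q →ₗ[ℝ] (ρ → ℝ)) (f : Q →ₗ[ℝ] (C → ℝ))
    (hK : ∀ X ∈ K, X *ᵥ w = 0 → u ᵥ* X = 0 → ∀ x y,
      e x ⬝ᵥ (X *ᵥ f y) + e y ⬝ᵥ (X *ᵥ f x) = 0)
    {p q : ℕ} (hp : p + 1 ≤ finrank ℝ ((ℝ ∙ u) ⊔ LinearMap.range e : Submodule ℝ (ρ → ℝ)))
    (hq : q + 1 ≤ finrank ℝ ((ℝ ∙ w) ⊔ LinearMap.range f : Submodule ℝ (C → ℝ))) :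
    2 * finrank ℝ K + p * q ≤ 2 * (Fintype.card C * Fintype.card ρ) := by
  have hp' : p + 1 ≤ finrank ℝ ((ℝ ∙ (dotProductEquiv ℝ ρ u)) ⊔
      LinearMap.range ((dotProductEquiv ℝ ρ).toLinearMap ∘ₗ e) :
        Submodule ℝ (Module.Dual ℝ (ρ → ℝ))) := by
    have h1 : ((ℝ ∙ (dotProductEquiv ℝ ρ u)) ⊔
        LinearMap.range ((dotProductEquiv ℝ ρ).toLinearMap ∘ₗ e) :
        Submodule ℝ (Module.Dual ℝ (ρ → ℝ))) =
        ((ℝ ∙ u) ⊔ LinearMap.range e).map (dotProductEquiv ℝ ρ).toLinearMap := by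
      rw [Submodule.map_sup, LinearMap.map_span, Set.image_singleton, LinearMap.range_comp]
      rfl
    rw [h1, LinearEquiv.finrank_map_eq]
    exact hp
  have h2 := linF (K.map (Matrix.toLin' (R := ℝ) (m := ρ) (n := C)).toLinearMap) w hw
    (dotProductEquiv ℝ ρ u) (by simpa using hu) ((dotProductEquiv ℝ ρ).toLinearMap ∘ₗ e) f (by
      rintro _ ⟨X, hX, rfl⟩ hXw huX x y
      refine hK X hX hXw ?_ x y
      funext j
      have h3 := huX (Pi.single j 1)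
      have h4 : u ⬝ᵥ (X *ᵥ Pi.single j 1) = 0 := h3
      rw [Matrix.dotProduct_mulVec, dotProduct_single, mul_one] at h4
      exact h4) hp' hq
  rw [LinearEquiv.finrank_map_eq, finrank_fintype_fun_eq_card,
    finrank_fintype_fun_eq_card] at h2
  exact h2

end Run7.h460.LC
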