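import Mathlib

set_option autoImplicit false

/-! # Two computers which exchange real numbers

The data of a problem are divided between two computers. Both can carry out arithmetic on their own
data, on all numbers received or sent so far and on real constants, at no cost; the results of all
comparisons are known to both computers, at no cost; only the real numbers sent from one computer
to the other are counted.
-/

namespace Run7.h460.LC

/-- Arithmetic expressions in the variables `ι`, with arbitrary real constants. -/
inductive Arith (ι : Type) : Type where
  | var (i : ι)
  | const (c : ℝ)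
  | add (e f : Arith ι)
  | sub (e f : Arith ι)
  | mul (e f : Arith ι)
  | div (e f : Arith ι)

namespace Arith

/-- The value of an expression. -/
noncomputable def eval {ι : Type} (x : ι → ℝ) : Arith ι → ℝ
  | var i => x i
  | const c => c
  | add e f => e.eval x + f.eval x
  | sub e f => e.eval x - f.eval x
  | mul e f => e.eval x * f.eval x
  | div e f => e.eval x / f.eval x

/-- The constants of an expression. -/
def consts {ι : Type} : Arith ι → Set ℝ
  | var _ => ∅
  | const c => {c}
  | add e f => e.consts ∪ f.consts
  | sub e f => e.consts ∪ f.consts
  | mul e f => e.consts ∪ f.consts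
  | div e f => e.consts ∪ f.consts

end Arith

/-- One action of the two computers, `α` and `β` being the index sets of their data. The variables
of the expressions are the data of the acting computer (`inl`) and the numbers sent so far
(`inr i` is number `i`). -/
inductive Act (α β : Type) : Type where
  /-- The computers stop with an answer. -/
  | answer (b : Bool)
  /-- The first computer sends a real number to the second. -/
  | sendA (e : Arith (α ⊕ ℕ))
  /-- The second computer sends a real number to the first. -/
  | sendB (e : Arith (β ⊕ ℕ))
  /-- The first computer compares a number with `0`; both learn the result. -/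
  | testA (e : Arith (α ⊕ ℕ))
  /-- The second computer compares a number with `0`; both learn the result. -/
  | testB (e : Arith (β ⊕ ℕ))

/-- A protocol: in each control state, the action and the next control state, which may depend on
the result of a comparison (it is `next s 0` after a number was sent). -/
structure Protocol (α β : Type) where
  act : ℕ → Act α β
  next : ℕ → SignType → ℕ

/-- What a computer with the data `x` knows after the numbers `ms` were sent. -/
def know {α : Type} (x : α → ℝ) (ms : List ℝ) : α ⊕ ℕ → ℝ := Sum.elim x fun i => ms.getD i 0

namespace Protocol

variable {α β : Type}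

/-- `p.Run x y s ms b fin`: on the data `x` and `y`, from the control state `s` and after the
numbers `ms` were sent, the computers stop with the answer `b`, and the numbers sent altogether
are `fin`. -/
inductive Run (p : Protocol α β) (x : α → ℝ) (y : β → ℝ) : ℕ → List ℝ → Bool → List ℝ → Prop
  | answer {s : ℕ} {ms : List ℝ} {b : Bool} : p.act s = .answer b → Run p x y s ms b ms
  | sendA {s : ℕ} {ms : List ℝ} {b : Bool} {fin : List ℝ} {e : Arith (α ⊕ ℕ)} :
      p.act s = .sendA e →
      Run p x y (p.next s 0) (ms ++ [e.eval (know x ms)]) b fin → Run p x y s ms b fin
  | sendB {s : ℕ} {ms : List ℝ} {b : Bool} {fin : List ℝ} {e : Arith (β ⊕ ℕ)} :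
      p.act s = .sendB e →
      Run p x y (p.next s 0) (ms ++ [e.eval (know y ms)]) b fin → Run p x y s ms b fin
  | testA {s : ℕ} {ms : List ℝ} {b : Bool} {fin : List ℝ} {e : Arith (α ⊕ ℕ)} :
      p.act s = .testA e →
      Run p x y (p.next s (SignType.sign (e.eval (know x ms)))) ms b fin → Run p x y s ms b fin
  | testB {s : ℕ} {ms : List ℝ} {b : Bool} {fin : List ℝ} {e : Arith (β ⊕ ℕ)} :
      p.act s = .testB e →
      Run p x y (p.next s (SignType.sign (e.eval (know y ms)))) ms b fin → Run p x y s ms b fin

/-- The protocol stops on all data and decides the property `F`. -/
def Decides (p : Protocol α β) (F : (α → ℝ) → (β → ℝ) → Prop) : Prop :=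
  ∀ x y, ∃ b fin, p.Run x y 0 [] b fin ∧ (b = true ↔ F x y)

end Protocol

/-- The inequality `i` holds at the point `z`: the entries `a (i, some j)` are its coefficients,
and `a (i, none)` is its right-hand side. -/
def Holds {I : Type} {n : ℕ} (a : I × Option (Fin n) → ℝ) (i : I) (z : Fin n → ℝ) : Prop :=
  a (i, none) ≤ ∑ j, a (i, some j) * z j

/-- The inequalities of the two computers have a common solution. -/
def Feasible {I J : Type} {n : ℕ} (a : I × Option (Fin n) → ℝ) (b : J × Option (Fin n) → ℝ) :
    Prop :=
  ∃ z : Fin n → ℝ, (∀ i, Holds a i z) ∧ ∀ j, Holds b j z

end Run7.h460.LC
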