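import Pool.Agent.Run7.h460.LC.Model
import Pool.Agent.Run7.h460.LC.Base
import Pool.Agent.Run7.h460.LC.Emb2

set_option autoImplicit false
set_option linter.unusedSectionVars false

/-! # Running a protocol on a family of data -/

namespace Run7.h460.LC

open Module Matrix Pool.Agent.H135R2.VS Filter Topology

namespace Arith

variable {ι : Type}

theorem countable_consts (e : Arith ι) : e.consts.Countable := by
  induction e with
  | var i => exact Set.countable_empty
  | const c => exact Set.countable_singleton c
  | add e f he hf => exact he.union hf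
  | sub e f he hf => exact he.union hf
  | mul e f he hf => exact he.union hf
  | div e f he hf => exact he.union hf

theorem der_eval (e : Arith ι) {x : ι → ℝ} {D : Der} (hc : ∀ c ∈ e.consts, D c = 0)
    (hx : ∀ i, D (x i) = 0) : D (e.eval x) = 0 := by
  induction e with
  | var i => exact hx i
  | const c => exact hc c rfl
  | add e f he hf =>
    rw [eval, map_add, he fun c h => hc c (.inl h), hf fun c h => hc c (.inr h), add_zero]
  | sub e f he hf =>
    rw [eval, map_sub, he fun c h => hc c (.inl h), hf fun c h => hc c (.inr h), sub_zero]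
  | mul e f he hf =>
    rw [eval, Derivation.leibniz, he fun c h => hc c (.inl h), hf fun c h => hc c (.inr h)]
    simp
  | div e f he hf =>
    rw [eval, Derivation.leibniz_div, he fun c h => hc c (.inl h), hf fun c h => hc c (.inr h)]
    simp

theorem mem_fml {F : SF} {t : ℝ} {S : Set ℝ} {G : Set (ℝ → ℝ)} (hG : Fml F t S G)
    (e : Arith ι) {X : ι → ℝ → ℝ} (hc : ∀ c ∈ e.consts, c ∈ F) (hX : ∀ i, X i ∈ G) :
    (fun s => e.eval fun i => X i s) ∈ G := by
  have hneg : ∀ h ∈ G, (fun s => - h s) ∈ G := by
    intro h hh
    have h1 := hG.mul _ (hG.const (-1) (neg_mem (one_mem F))) h hh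
    have h2 : (fun s => - h s) = fun s => (-1 : ℝ) * h s := by ext s; ring
    rw [h2]
    exact h1
  induction e with
  | var i => exact hX i
  | const c => exact hG.const c (hc c rfl)
  | add e f he hf => exact hG.add _ (he fun c h => hc c (.inl h)) _ (hf fun c h => hc c (.inr h))
  | sub e f he hf =>
    have h1 := hG.add _ (he fun c h => hc c (.inl h)) _ (hneg _ (hf fun c h => hc c (.inr h)))
    simp only [← sub_eq_add_neg] at h1
    exact h1
  | mul e f he hf => exact hG.mul _ (he fun c h => hc c (.inl h)) _ (hf fun c h => hc c (.inr h))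
  | div e f he hf =>
    have h1 := hG.mul _ (he fun c h => hc c (.inl h)) _ (hG.inv _ (hf fun c h => hc c (.inr h)))
    simp only [← div_eq_mul_inv] at h1
    exact h1

end Arith

/-- The constants of an action. -/
def Act.consts {α β : Type} : Act α β → Set ℝ
  | .answer _ => ∅
  | .sendA e => e.consts
  | .sendB e => e.consts
  | .testA e => e.consts
  | .testB e => e.consts

theorem Act.countable_consts {α β : Type} (a : Act α β) : a.consts.Countable := by
  cases a with
  | answer b => exact Set.countable_empty
  | sendA e => exact e.countable_consts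
  | sendB e => exact e.countable_consts
  | testA e => exact e.countable_consts
  | testB e => exact e.countable_consts

namespace Protocol

variable {α β : Type}

/-- The constants of a protocol. -/
def consts (p : Protocol α β) : Set ℝ := ⋃ s, (p.act s).consts

theorem countable_consts (p : Protocol α β) : p.consts.Countable :=
  Set.countable_iUnion fun s => (p.act s).countable_consts

variable {p : Protocol α β} {x : α → ℝ} {y : β → ℝ}

/-- The numbers sent are kept. -/
theorem Run.subset {s : ℕ} {ms : List ℝ} {b : Bool} {fin : List ℝ}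
    (h : p.Run x y s ms b fin) : ∀ m ∈ ms, m ∈ fin := by
  induction h with
  | answer _ => exact fun m hm => hm
  | sendA _ _ ih => exact fun m hm => ih m (List.mem_append_left _ hm)
  | sendB _ _ ih => exact fun m hm => ih m (List.mem_append_left _ hm)
  | testA _ _ ih => exact ih
  | testB _ _ ih => exact ih

/-- The outcome is unique. -/
theorem Run.unique {s : ℕ} {ms : List ℝ} {b : Bool} {fin : List ℝ}
    (h : p.Run x y s ms b fin) {b' : Bool} {fin' : List ℝ} (h' : p.Run x y s ms b' fin') :
    b = b' := by
  induction h with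
  | answer h1 =>
    cases h' with
    | answer h2 => rw [h1] at h2; injection h2
    | sendA h2 _ => rw [h1] at h2; cases h2
    | sendB h2 _ => rw [h1] at h2; cases h2
    | testA h2 _ => rw [h1] at h2; cases h2
    | testB h2 _ => rw [h1] at h2; cases h2
  | sendA h1 _ ih =>
    cases h' with
    | answer h2 => rw [h1] at h2; cases h2
    | sendA h2 h3 => rw [h1] at h2; cases h2; exact ih h3
    | sendB h2 _ => rw [h1] at h2; cases h2
    | testA h2 _ => rw [h1] at h2; cases h2
    | testB h2 _ => rw [h1] at h2; cases h2
  | sendB h1 _ ih =>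
    cases h' with
    | answer h2 => rw [h1] at h2; cases h2
    | sendA h2 _ => rw [h1] at h2; cases h2
    | sendB h2 h3 => rw [h1] at h2; cases h2; exact ih h3
    | testA h2 _ => rw [h1] at h2; cases h2
    | testB h2 _ => rw [h1] at h2; cases h2
  | testA h1 _ ih =>
    cases h' with
    | answer h2 => rw [h1] at h2; cases h2
    | sendA h2 _ => rw [h1] at h2; cases h2
    | sendB h2 _ => rw [h1] at h2; cases h2
    | testA h2 h3 => rw [h1] at h2; cases h2; exact ih h3
    | testB h2 _ => rw [h1] at h2; cases h2
  | testB h1 _ ih =>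
    cases h' with
    | answer h2 => rw [h1] at h2; cases h2
    | sendA h2 _ => rw [h1] at h2; cases h2
    | sendB h2 _ => rw [h1] at h2; cases h2
    | testA h2 _ => rw [h1] at h2; cases h2
    | testB h2 h3 => rw [h1] at h2; cases h2; exact ih h3

theorem consts_act {k : SF} (hk : p.consts ⊆ k) (s : ℕ) : (p.act s).consts ⊆ k :=
  (Set.subset_iUnion _ s).trans hk

theorem der_know {D : Der} {γ : Type} {z : γ → ℝ} (hz : ∀ i, D (z i) = 0) {ms : List ℝ}
    (hms : ∀ m ∈ ms, D m = 0) (i : γ ⊕ ℕ) : D (know z ms i) = 0 := by
  rcases i with i | i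
  · exact hz i
  · change D (ms.getD i 0) = 0
    rcases lt_or_ge i ms.length with h | h
    · rw [List.getD_eq_getElem _ _ h]
      exact hms _ (List.getElem_mem h)
    · rw [List.getD_eq_default _ _ h, map_zero]

variable {ρ σ C : Type} [Fintype ρ] [Fintype σ] [Fintype C] [DecidableEq ρ] [DecidableEq σ]
  [DecidableEq C]

/-- The messages of a run form a chain. -/
theorem Run.chain {k : SF} {P : Matrix ρ C ℝ} {Q : Matrix σ C ℝ} (hk : p.consts ⊆ k)
    (hx : ∀ D : Der, dm P D = 0 → ∀ i, D (x i) = 0)
    (hy : ∀ D : Der, dm Q D = 0 → ∀ i, D (y i) = 0)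
    {s : ℕ} {ms : List ℝ} {b : Bool} {fin : List ℝ} (h : p.Run x y s ms b fin)
    (hc : Chain k P Q ms) : Chain k P Q fin := by
  induction h with
  | answer _ => exact hc
  | @sendA s ms b fin e h1 _ ih =>
    refine ih (.A _ hc fun D hD hP => ?_)
    refine e.der_eval (fun c hc => hD.1 c ?_) (der_know (hx D hP) hD.2)
    exact consts_act hk s (by rw [h1]; exact hc)
  | @sendB s ms b fin e h1 _ ih =>
    refine ih (.B _ hc fun D hD hP => ?_)
    refine e.der_eval (fun c hc => hD.1 c ?_) (der_know (hy D hP) hD.2)
    exact consts_act hk s (by rw [h1]; exact hc)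
  | testA _ _ ih => exact ih hc
  | testB _ _ ih => exact ih hc

/-- A run can be repeated for nearby data of a family. -/
theorem Run.sim {F : SF} {t : ℝ} {S : Set ℝ} {G : Set (ℝ → ℝ)} (hG : Fml F t S G)
    (hF : p.consts ⊆ F) {X : α → ℝ → ℝ} (hX : ∀ i, X i ∈ G)
    {s : ℕ} {ms : List ℝ} {b : Bool} {fin : List ℝ}
    (h : p.Run (fun i => X i t) y s ms b fin) (hfin : ∀ m ∈ fin, m ∈ F) :
    ∀ᶠ r in 𝓝[S] t, p.Run (fun i => X i r) y s ms b fin := by
  have hval : ∀ (e : Arith (α ⊕ ℕ)) (ms : List ℝ), e.consts ⊆ F → (∀ m ∈ ms, m ∈ F) →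
      (fun r => e.eval (know (fun i => X i r) ms)) ∈ G := by
    intro e ms he hms
    let Y : α ⊕ ℕ → ℝ → ℝ := Sum.elim X fun i _ => ms.getD i 0
    have h1 := e.mem_fml hG (X := Y) (fun c hc => he hc) (by
      rintro (i | i)
      · exact hX i
      · refine hG.const (ms.getD i 0) ?_
        rcases lt_or_ge i ms.length with h | h
        · rw [List.getD_eq_getElem _ _ h]
          exact hms _ (List.getElem_mem h)
        · rw [List.getD_eq_default _ _ h]
          exact zero_mem F)
    have h2 : ∀ r, (fun i => Y i r) = know (fun i => X i r) ms := by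
      intro r
      ext i
      rcases i with i | i <;> rfl
    simp only [h2] at h1
    exact h1
  induction h with
  | answer h1 => exact Eventually.of_forall fun r => .answer h1
  | @sendA s ms b fin e h1 h2 ih =>
    have hmem : ∀ m ∈ ms ++ [e.eval (know (fun i => X i t) ms)], m ∈ F :=
      fun m hm => hfin m (h2.subset m hm)
    have h3 := hval e ms (fun c hc => hF (Set.mem_iUnion.2 ⟨s, by rw [h1]; exact hc⟩))
      (fun m hm => hmem m (List.mem_append_left _ hm))
    set m₀ := e.eval (know (fun i => X i t) ms) with hm₀
    have h4 : m₀ ∈ F := hmem _ (by simp)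
    have h5 : ∀ r ∈ S, e.eval (know (fun i => X i r) ms) = m₀ := by
      intro r hr
      have h6 := hG.add _ h3 _ (hG.const (-m₀) (neg_mem h4))
      have h7 := hG.zero _ h6 (by rw [← hm₀, add_neg_cancel]) r hr
      linarith
    filter_upwards [ih hfin, self_mem_nhdsWithin] with r hr hrS
    refine .sendA h1 ?_
    rw [h5 r hrS]
    exact hr
  | @sendB s ms b fin e h1 h2 ih =>
    filter_upwards [ih hfin] with r hr
    exact .sendB h1 hr
  | @testA s ms b fin e h1 h2 ih =>
    have h3 := hval e ms (fun c hc => hF (Set.mem_iUnion.2 ⟨s, by rw [h1]; exact hc⟩))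
      (fun m hm => hfin m (h2.subset m hm))
    have h4 : ∀ᶠ r in 𝓝[S] t, SignType.sign (e.eval (know (fun i => X i r) ms)) =
        SignType.sign (e.eval (know (fun i => X i t) ms)) := by
      rcases lt_trichotomy (e.eval (know (fun i => X i t) ms)) 0 with h | h | h
      · filter_upwards [(hG.lim _ h3).eventually_lt_const h] with r hr
        rw [sign_neg hr, sign_neg h]
      · filter_upwards [self_mem_nhdsWithin] with r hr
        rw [h, hG.zero _ h3 h r hr]
      · filter_upwards [(hG.lim _ h3).eventually_const_lt h] with r hr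
        rw [sign_pos hr, sign_pos h]
    filter_upwards [ih hfin, h4] with r hr hr4
    refine .testA h1 ?_
    rw [hr4]
    exact hr
  | @testB s ms b fin e h1 h2 ih =>
    filter_upwards [ih hfin] with r hr
    exact .testB h1 hr

end Protocol

end Run7.h460.LC
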