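import Pool.Agent.Run7.h460.LC.Evo

set_option autoImplicit false
set_option linter.unusedSectionVars false

/-! # The effect of one message -/

namespace Run7.h460.LC

open Module Matrix Pool.Agent.H135R2.VS

variable {ρ σ C : Type} [Fintype ρ] [Fintype σ] [Fintype C] [DecidableEq ρ] [DecidableEq σ]
  [DecidableEq C]

/-- The state of the conversation after few messages. -/
structure Inv (P : Matrix ρ C ℝ) (Q : Matrix σ C ℝ) (u : ρ → ℝ) (v : σ → ℝ) (w : C → ℝ)
    (T : Submodule ℝ Der) (A B : ℕ) : Prop where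
  st : St P Q u v w T
  cA : Fintype.card C * Fintype.card ρ ≤ finrank ℝ (T.map (dm P)) + A
  cB : Fintype.card C * Fintype.card σ ≤ finrank ℝ (T.map (dm Q)) + B
  k1 : Fintype.card ρ ≤ 2 * finrank ℝ ((T.map (dm P)).map (mv w))
  k2 : 2 * Fintype.card C ≤ 2 * finrank ℝ ((T.map (dm P)).map (vm u)) + Fintype.card σ
  j1 : Fintype.card σ ≤ 2 * finrank ℝ ((T.map (dm Q)).map (mv w))
  j2 : 2 * Fintype.card C ≤ 2 * finrank ℝ ((T.map (dm Q)).map (vm v)) + Fintype.card ρ

variable {P : Matrix ρ C ℝ} {Q : Matrix σ C ℝ} {u : ρ → ℝ} {v : σ → ℝ} {w : C → ℝ}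
  {T : Submodule ℝ Der} {A B : ℕ}

theorem Inv.swap (h : Inv P Q u v w T A B) : Inv Q P v u w T B A :=
  ⟨h.st.swap, h.cB, h.cA, h.j1, h.j2, h.k1, h.k2⟩

theorem arith1 {N a b A κ s K : ℕ} (h1 : K + s * a ≤ N * a + s * κ) (h2 : N * a ≤ K + A)
    (h3 : b ≤ 2 * s) (h4 : 2 * κ < a) : a * b ≤ 4 * A := by
  have h5 : s * (2 * κ + 1) ≤ s * a := Nat.mul_le_mul_left s h4
  have h6 : s * (2 * κ + 1) = 2 * (s * κ) + s := by ring
  have h7 : b * a ≤ 2 * s * a := Nat.mul_le_mul_right a h3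
  have h8 : s * a ≤ A + s * κ := by omega
  nlinarith

theorem arith2 {a b A κ s K : ℕ} (h1 : K + s * (a + b) ≤ a * (a + b) + s * κ)
    (h2 : (a + b) * a ≤ K + A) (h3 : a ≤ 2 * s) (h4 : 2 * κ + b < 2 * (a + b)) :
    a * b ≤ 4 * A := by
  have h5 : s * (2 * κ + b + 1) ≤ s * (2 * (a + b)) := Nat.mul_le_mul_left s h4
  have h6 : s * (2 * κ + b + 1) = 2 * (s * κ) + s * b + s := by ring
  have h6' : s * (2 * (a + b)) = 2 * (s * (a + b)) := by ring
  have h7 : a * b ≤ 2 * s * b := Nat.mul_le_mul_right b h3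
  have h8 : s * (a + b) ≤ A + s * κ := by nlinarith
  nlinarith

theorem arith3 {a b c : ℕ} (h : a * b ≤ 4 * c) (d : ℕ) (hd : c ≤ d) :
    (a - 2) * (b - 2) ≤ 4 * d := by
  have h1 : (a - 2) * (b - 2) ≤ a * b := Nat.mul_le_mul (Nat.sub_le _ _) (Nat.sub_le _ _)
  omega

theorem arith4 {a b A N p q K : ℕ} (hp : a ≤ 2 * (p + 1)) (hq : b ≤ 2 * (q + 1))
    (h1 : 2 * K + p * q ≤ 2 * N) (h2 : N ≤ K + A) : (a - 2) * (b - 2) ≤ 8 * A := by
  have h3 : p * q ≤ 2 * A := by omega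
  have h4 : (a - 2) * (b - 2) ≤ (2 * p) * (2 * q) := Nat.mul_le_mul (by omega) (by omega)
  nlinarith

/-- The effect of a message of the first computer. -/
theorem step (hd : Dat P Q u v w) (hi : Inv P Q u v w T A B) (m : ℝ)
    (hm : ∀ D ∈ T, dm P D = 0 → D m = 0) :
    Inv P Q u v w (T ⊓ LinearMap.ker (de m)) (A + 1) B ∨
      (Fintype.card ρ - 2) * (Fintype.card σ - 2) ≤ 4 * (A + B + 2) := by
  classical
  set T' := T ⊓ LinearMap.ker (de m) with hT'
  have hT'T : T' ≤ T := inf_le_left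
  have hs := hi.st
  have hcl : Cl T' := hs.cl.inf_de m
  have hcP := codim_le T m P
  have hcQ := codim_le T m Q
  rw [← hT'] at hcP hcQ
  have hcard := hd.card
  have hfix : fix T P ≤ T' := fun D hD => ⟨hD.1, hm D hD.1 hD.2⟩
  -- a derivation of `T` with the same values on `P` as one of `T'` is in `T'`
  have hsame : ∀ D ∈ T, ∀ D' ∈ T', dm P D = dm P D' → D ∈ T' := by
    intro D hD D' hD' h
    refine ⟨hD, ?_⟩
    have h1 := hm (D - D') (T.sub_mem hD hD'.1) (by rw [map_sub, h, sub_self])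
    have h2 : D' m = 0 := hD'.2
    rw [Derivation.sub_apply, h2, sub_zero] at h1
    exact h1
  by_cases hnz : ∃ X ∈ T'.map (dm P), u ⬝ᵥ (X *ᵥ w) ≠ 0
  · -- still the first state
    obtain ⟨X, hX, hXnz⟩ := hnz
    have hJ : T'.map (dm Q) = T.map (dm Q) := by
      refine le_antisymm (Submodule.map_mono hT'T) ?_
      intro Y hY
      obtain ⟨D', hD', hD'X⟩ := hX
      set c := -(v ⬝ᵥ (Y *ᵥ w)) / (u ⬝ᵥ (X *ᵥ w)) with hc
      have h1 : u ⬝ᵥ ((c • X) *ᵥ w) + v ⬝ᵥ (Y *ᵥ w) = 0 := by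
        rw [Matrix.smul_mulVec, dotProduct_smul, smul_eq_mul, hc, div_mul_cancel₀ _ hXnz]
        ring
      obtain ⟨D, hD, h2, h3⟩ := hs.str (c • X)
        (Submodule.smul_mem _ _ ⟨D', hD'.1, hD'X⟩) Y hY h1
      refine ⟨D, hsame D hD (c • D') (T'.smul_mem _ hD') ?_, h3⟩
      rw [h2, map_smul, hD'X]
    have hst : St P Q u v w T' := by
      refine ⟨hcl, ?_, ⟨X, hX, hXnz⟩, ?_⟩
      · intro X' hX' Y' hY' h
        obtain ⟨D, hD, h2, h3⟩ := hs.str X' (Submodule.map_mono hT'T hX') Y'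
          (Submodule.map_mono hT'T hY') h
        obtain ⟨D', hD', hD'X⟩ := hX'
        exact ⟨D, hsame D hD D' hD' (by rw [h2, hD'X]), h2, h3⟩
      · rw [hJ]
        exact hs.nzB
    have hcA : Fintype.card C * Fintype.card ρ ≤ finrank ℝ (T'.map (dm P)) + (A + 1) := by
      have := hi.cA
      omega
    have hB := lemB hd hst
    have hB' := lemB' hd hst
    rw [hJ] at hB hB'
    have hA := lemA hcl P w hd.w0
    have hA' := lemA' hcl P u hd.u0
    have hj1 := hi.j1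
    have hj2 := hi.j2
    by_cases hk1 : 2 * finrank ℝ ((T'.map (dm P)).map (mv w)) < Fintype.card ρ
    · right
      exact arith3 (arith1 hA hcA (by omega) hk1) _ (by omega)
    by_cases hk2 : 2 * finrank ℝ ((T'.map (dm P)).map (vm u)) + Fintype.card σ <
        2 * Fintype.card C
    · right
      rw [hcard] at hA' hcA hk2 hj2
      exact arith3 (arith2 hA' hcA (by omega) hk2) _ (by omega)
    left
    refine ⟨hst, hcA, ?_, ?_, ?_, ?_, ?_⟩
    · rw [hJ]; exact hi.cB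
    · omega
    · omega
    · rw [hJ]; exact hi.j1
    · rw [hJ]; exact hi.j2
  · -- the last phase
    push Not at hnz
    right
    by_cases hsmall : Fintype.card ρ ≤ 2 ∨ Fintype.card σ ≤ 2
    · rcases hsmall with h | h
      · rw [Nat.sub_eq_zero_of_le h, zero_mul]; omega
      · rw [Nat.sub_eq_zero_of_le h, mul_zero]; omega
    push Not at hsmall
    -- `T'` consists of the derivations which fix the product
    have hT'' : ∀ D ∈ T, u ⬝ᵥ (dm P D *ᵥ w) = 0 → D ∈ T' := by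
      intro D hD h0
      obtain ⟨_, ⟨D', hD', rfl⟩, hnz'⟩ := hs.nzA
      have hm' : D' m ≠ 0 := by
        intro h
        exact hnz' (hnz _ ⟨D', ⟨hD', h⟩, rfl⟩)
      have h1 : D - (D m / D' m) • D' ∈ T' := by
        refine ⟨T.sub_mem hD (T.smul_mem _ hD'), ?_⟩
        change (D - (D m / D' m) • D') m = 0
        rw [Derivation.sub_apply, Derivation.smul_apply, smul_eq_mul, div_mul_cancel₀ _ hm',
          sub_self]
      have h2 := hnz _ ⟨_, h1, rfl⟩
      rw [map_sub, map_smul, Matrix.sub_mulVec, Matrix.smul_mulVec, dotProduct_sub,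
        dotProduct_smul, h0, zero_sub, neg_eq_zero, smul_eq_mul] at h2
      rcases mul_eq_zero.1 h2 with h3 | h3
      · refine ⟨hD, ?_⟩
        rcases div_eq_zero_iff.1 h3 with h4 | h4
        · exact h4
        · exact absurd h4 hm'
      · exact absurd h3 hnz'
    have hfix1 : fix T P ≤ fix T' P := fun D hD => ⟨hfix hD, hD.2⟩
    have hfix2 : fix T Q ≤ fix T' Q := by
      intro D hD
      refine ⟨hT'' D hD.1 ?_, hD.2⟩
      have h1 := hd.rel D
      have h2 : dm Q D = 0 := hD.2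
      rw [h2, Matrix.zero_mulVec, dotProduct_zero, add_zero] at h1
      exact h1
    have hnzQ : ∀ Y ∈ T'.map (dm Q), v ⬝ᵥ (Y *ᵥ w) = 0 := by
      rintro _ ⟨D, hD, rfl⟩
      have h1 := hd.rel D
      rw [hnz _ ⟨D, hD, rfl⟩, zero_add] at h1
      exact h1
    -- the first computer
    have b1 := lemB hd hs
    have b2 := lemB' hd hs
    have b3 := lemB hd.swap hs.swap
    have b4 := lemB' hd.swap hs.swap
    have i1 := hi.k1
    have i2 := hi.k2
    have i3 := hi.j1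
    have i4 := hi.j2
    have i5 := hi.cA
    have i6 := hi.cB
    set s1 := finrank ℝ ((ℝ ∙ w) ⊔ (fix T P).map (dv w) : Submodule ℝ (C → ℝ)) with hs1
    set s2 := finrank ℝ ((ℝ ∙ u) ⊔ (fix T P).map (dv u) : Submodule ℝ (ρ → ℝ)) with hs2
    set s3 := finrank ℝ ((ℝ ∙ w) ⊔ (fix T Q).map (dv w) : Submodule ℝ (C → ℝ)) with hs3
    set s4 := finrank ℝ ((ℝ ∙ v) ⊔ (fix T Q).map (dv v) : Submodule ℝ (σ → ℝ)) with hs4
    have f1 := finF hcl P w hd.w0 u hd.u0 hnz hfix1 (p := s2 - 1) (q := s1 - 1)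
      (by omega) (by omega)
    have f2 := finF hcl Q w hd.w0 v hd.v0 hnzQ hfix2 (p := s4 - 1) (q := s3 - 1)
      (by omega) (by omega)
    have e1 : (Fintype.card ρ - 2) * (Fintype.card σ - 2) ≤ 8 * (A + 1) :=
      arith4 (p := s2 - 1) (q := s1 - 1) (by omega) (by omega) f1 (by omega)
    have e2 : (Fintype.card σ - 2) * (Fintype.card ρ - 2) ≤ 8 * (B + 1) :=
      arith4 (p := s4 - 1) (q := s3 - 1) (by omega) (by omega) f2 (by omega)
    rw [mul_comm] at e2
    omega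

end Run7.h460.LC
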